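import Mathlib

/-! Symmetric sets with unique sums: counting functions and their moments. -/

open Finset

namespace Pool.Agent.MP_824cb5_co.Ev

variable {G : Type} [AddCommGroup G] [Fintype G] [DecidableEq G]

/-- symmetric sets of size `2 m` with unique nonzero sums -/
structure Sid (B : Finset G) (m : ℕ) : Prop where
  card : B.card = 2 * m
  neg : ∀ b ∈ B, -b ∈ B
  two : ∀ b ∈ B, b + b ≠ 0
  uni : ∀ a ∈ B, ∀ b ∈ B, ∀ c ∈ B, ∀ e ∈ B, a + b = c + e → a + b ≠ 0 → a = c ∨ a = e

/-- indicator -/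
def iS (S : Finset G) (x : G) : ℤ := if x ∈ S then 1 else 0

/-- indicator of an equation -/
def iE (x y : G) : ℤ := if x = y then 1 else 0

/-- ordered representations as a sum of two -/
def rr (B : Finset G) (x : G) : ℤ := ∑ b ∈ B, iS B (x - b)

/-- doubles -/
def PP (B : Finset G) (x : G) : ℤ := ∑ b ∈ B, iE (b + b) x

/-- triples -/
def CC (B : Finset G) (x : G) : ℤ := ∑ b ∈ B, iE (b + b + b) x

/-- zero and the elements that are not sums -/
def DD (B : Finset G) : Finset G := univ.filter fun x => x = 0 ∨ rr B x = 0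

/-- representations as an element plus a double -/
def UU (B : Finset G) (g : G) : ℤ := ∑ b ∈ B, iS B (g - (b + b))

/-- translates by the missing elements -/
def FF (B : Finset G) (g : G) : ℤ := ∑ x ∈ DD B, iS B (g - x)

/-- the elements killed by two -/
def VV (G : Type) [AddCommGroup G] [Fintype G] [DecidableEq G] : Finset G :=
  univ.filter fun x => x + x = 0

omit [AddCommGroup G] [Fintype G] in
lemma iS_nn (S : Finset G) (x : G) : 0 ≤ iS S x := by unfold iS; split_ifs <;> simp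

omit [AddCommGroup G] [Fintype G] in
lemma iS_le (S : Finset G) (x : G) : iS S x ≤ 1 := by unfold iS; split_ifs <;> simp

omit [AddCommGroup G] [Fintype G] in
lemma iS_yes {S : Finset G} {x : G} (h : x ∈ S) : iS S x = 1 := if_pos h

omit [AddCommGroup G] [Fintype G] in
lemma iS_no {S : Finset G} {x : G} (h : x ∉ S) : iS S x = 0 := if_neg h

omit [AddCommGroup G] [Fintype G] in
lemma iE_nn (x y : G) : 0 ≤ iE x y := by unfold iE; split_ifs <;> simp

omit [AddCommGroup G] [Fintype G] in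
lemma iE_no {x y : G} (h : x ≠ y) : iE x y = 0 := if_neg h

omit [AddCommGroup G] in
lemma sumS (S : Finset G) (f : G → ℤ) : ∑ g, iS S g * f g = ∑ b ∈ S, f b := by
  simp [iS, ite_mul]

omit [AddCommGroup G] in
lemma sumE (x : G) (f : G → ℤ) : ∑ g, iE x g * f g = f x := by
  simp [iE, ite_mul]

lemma shiftS (S : Finset G) (a : G) (f : G → ℤ) :
    ∑ g, iS S (g - a) * f g = ∑ b ∈ S, f (b + a) := by
  rw [← sumS S, ← Equiv.sum_comp (Equiv.addRight a)]
  simp

lemma shift1 (S : Finset G) (a : G) : ∑ g, iS S (g - a) = S.card := by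
  simpa using shiftS S a fun _ => 1

omit [Fintype G] in
lemma rr_nn (B : Finset G) (x : G) : 0 ≤ rr B x := sum_nonneg fun _ _ => iS_nn _ _

omit [Fintype G] in
lemma PP_nn (B : Finset G) (x : G) : 0 ≤ PP B x := sum_nonneg fun _ _ => iE_nn _ _

omit [Fintype G] in
lemma CC_nn (B : Finset G) (x : G) : 0 ≤ CC B x := sum_nonneg fun _ _ => iE_nn _ _

omit [Fintype G] in
lemma UU_nn (B : Finset G) (x : G) : 0 ≤ UU B x := sum_nonneg fun _ _ => iS_nn _ _

lemma FF_nn (B : Finset G) (x : G) : 0 ≤ FF B x := sum_nonneg fun _ _ => iS_nn _ _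

lemma FF_le (B : Finset G) (x : G) : FF B x ≤ (DD B).card := by
  simpa [FF] using sum_le_card_nsmul (DD B) _ 1 fun y _ => iS_le B (x - y)

omit [Fintype G] in
lemma CC_le_UU (B : Finset G) (x : G) : CC B x ≤ UU B x := by
  refine sum_le_sum fun b hb => ?_
  by_cases h : b + b + b = x
  · rw [iS_yes (by rw [← h]; simpa using hb), iE, if_pos h]
  · rw [iE_no h]; exact iS_nn _ _

lemma zero_D (B : Finset G) : (0 : G) ∈ DD B := by simp [DD]

lemma sumP (B : Finset G) (f : G → ℤ) : ∑ y, PP B y * f y = ∑ b ∈ B, f (b + b) := by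
  simp only [PP, sum_mul]
  rw [sum_comm]
  exact sum_congr rfl fun b _ => sumE _ _

lemma sumC (B : Finset G) : ∑ y, CC B y = B.card := by
  simp only [CC]
  rw [sum_comm]
  simp [iE]

lemma sumR (B : Finset G) (f : G → ℤ) :
    ∑ y, rr B y * f y = ∑ b ∈ B, ∑ c ∈ B, f (c + b) := by
  simp only [rr, sum_mul]
  rw [sum_comm]
  exact sum_congr rfl fun b _ => shiftS _ _ _

variable {B : Finset G} {m : ℕ}

omit [Fintype G] in
lemma Sid.iS_neg (h : Sid B m) (x : G) : iS B (-x) = iS B x := by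
  unfold iS
  refine if_congr ⟨fun hx => ?_, h.neg x⟩ rfl rfl
  simpa using h.neg _ hx

omit [Fintype G] [DecidableEq G] in
lemma Sid.sum_neg (h : Sid B m) (f : G → ℤ) : ∑ b ∈ B, f (-b) = ∑ b ∈ B, f b :=
  sum_nbij' (fun b => -b) (fun b => -b) (fun b hb => h.neg b hb) (fun b hb => h.neg b hb)
    (fun b _ => neg_neg b) (fun b _ => neg_neg b) fun _ _ => rfl

omit [Fintype G] in
lemma Sid.rr_neg (h : Sid B m) (x : G) : rr B (-x) = rr B x := by
  unfold rr
  rw [← h.sum_neg]
  refine sum_congr rfl fun b _ => ?_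
  rw [← h.iS_neg]
  congr 1
  abel

lemma Sid.corr (h : Sid B m) (a c : G) :
    ∑ g, iS B (g - a) * iS B (g - c) = rr B (c - a) := by
  rw [shiftS]
  refine sum_congr rfl fun b _ => ?_
  rw [← h.iS_neg]
  congr 1
  abel

lemma Sid.sumR' (h : Sid B m) (f : G → ℤ) :
    ∑ y, rr B y * f y = ∑ b ∈ B, ∑ c ∈ B, f (c - b) := by
  rw [sumR, ← h.sum_neg]
  simp only [sub_eq_add_neg]

omit [Fintype G] in
lemma Sid.rr_zero (h : Sid B m) : rr B 0 = 2 * m := by
  have : ∀ b ∈ B, iS B (0 - b) = 1 := fun b hb => iS_yes (by simpa using h.neg b hb)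
  rw [rr, sum_congr rfl this]
  simp [h.card]

omit [Fintype G] in
lemma Sid.PP_zero (h : Sid B m) : PP B 0 = 0 := sum_eq_zero fun b hb => iE_no (h.two b hb)

omit [Fintype G] in
lemma PP_le_rr (B : Finset G) (x : G) : PP B x ≤ rr B x := by
  refine sum_le_sum fun b hb => ?_
  by_cases h : b + b = x
  · rw [iS_yes (by rw [← h]; simpa using hb), iE, if_pos h]
  · rw [iE_no h]; exact iS_nn _ _

lemma Sid.PP_D (h : Sid B m) {x : G} (hx : x ∈ DD B) : PP B x = 0 := by
  rcases (mem_filter.1 hx).2 with rfl | h0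
  · exact h.PP_zero
  · have := PP_le_rr B x
    have := PP_nn B x
    omega

lemma Sid.rr_not (h : Sid B m) {x : G} (hx : x ∉ DD B) : rr B x + PP B x = 2 := by
  have h1 : x ≠ 0 ∧ rr B x ≠ 0 := by simpa [DD] using hx
  obtain ⟨b, hb, h2⟩ := exists_ne_zero_of_sum_ne_zero h1.2
  have hc : x - b ∈ B := by
    by_contra h3
    exact h2 (iS_no h3)
  have key : ∀ a ∈ B, iS B (x - a) + iE (a + a) x = iE a b + iE a (x - b) := by
    intro a ha
    by_cases h4 : x - a ∈ B
    · rw [iS_yes h4]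
      rcases h.uni a ha _ h4 b hb _ hc (by abel) (by simpa using h1.1) with rfl | rfl
      · simp only [iE, eq_sub_iff_add_eq, if_true]
      · have e : (x - b + (x - b) = x) ↔ (x - b = b) := by
          constructor
          · intro h5
            have : x - b - b = x - b + (x - b) - x := by abel
            rw [h5, sub_self, sub_eq_zero] at this
            exact this
          · intro h5
            nth_rewrite 2 [h5]
            abel
        simp only [iE, e, if_true]
        ring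
    · have a1 : a + a ≠ x := fun h5 => h4 (by rw [← h5]; simpa using ha)
      have a2 : a ≠ b := fun h5 => h4 (h5 ▸ hc)
      have a3 : a ≠ x - b := fun h5 => h4 (by rw [h5]; simpa using hb)
      rw [iS_no h4, iE_no a1, iE_no a2, iE_no a3]
  rw [rr, PP, ← sum_add_distrib, sum_congr rfl key, sum_add_distrib]
  simp [iE, hb, hc]

lemma Sid.master (h : Sid B m) (x : G) :
    rr B x = 2 - 2 * iS (DD B) x - PP B x + 2 * m * iE 0 x := by
  by_cases hx : x ∈ DD B
  · rw [iS_yes hx, h.PP_D hx]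
    by_cases h0 : x = 0
    · subst h0
      rw [h.rr_zero]
      simp [iE]
    · rw [iE_no (Ne.symm h0), ((mem_filter.1 hx).2.resolve_left h0)]
      simp
  · have h0 : (0 : G) ≠ x := fun h0 => hx (h0 ▸ zero_D B)
    have := h.rr_not hx
    rw [iS_no hx, iE_no h0]
    linarith

lemma Sid.rr_le (h : Sid B m) (x : G) : rr B x ≤ 2 + 2 * m * iE 0 x := by
  have := h.master x
  have := iS_nn (DD B) x
  have := PP_nn B x
  linarith

lemma Sid.rr_le_two (h : Sid B m) {x : G} (hx : x ≠ 0) : rr B x ≤ 2 := by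
  simpa [iE_no hx.symm] using h.rr_le x

lemma Sid.PP_le (h : Sid B m) (x : G) : PP B x ≤ 1 := by
  by_cases hx : x ∈ DD B
  · rw [h.PP_D hx]; exact zero_le_one
  · have := h.rr_not hx
    have := PP_le_rr B x
    omega

lemma rr_D {x : G} (hx : x ∈ DD B) (h0 : x ≠ 0) : rr B x = 0 :=
  (mem_filter.1 hx).2.resolve_left h0

lemma not_D {a b : G} (ha : a ∈ B) (hb : b ∈ B) (h0 : a + b ≠ 0) :
    a + b ∉ DD B := by
  intro hx
  have h1 := (sum_eq_zero_iff_of_nonneg fun c _ => iS_nn B (a + b - c)).1 (rr_D hx h0) b hb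
  rw [iS_yes (by simpa using ha)] at h1
  exact one_ne_zero h1

lemma Sid.V_D (h : Sid B m) : VV G ⊆ DD B := by
  intro x hx
  have h2 : x + x = 0 := (mem_filter.1 hx).2
  refine mem_filter.2 ⟨mem_univ _, ?_⟩
  by_cases h0 : x = 0
  · exact Or.inl h0
  refine Or.inr (sum_eq_zero fun b hb => iS_no fun hc => ?_)
  rcases h.uni b hb _ hc _ (h.neg b hb) _ (h.neg _ hc)
    (by rw [← sub_eq_zero, ← h2]; abel) (by simpa using h0) with h3 | h3
  · exact h.two b hb (by nth_rewrite 2 [h3]; abel)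
  · exact h0 (by rw [← sub_add_cancel x b]; nth_rewrite 2 [h3]; abel)

lemma Sid.D_neg (h : Sid B m) {x : G} (hx : x ∈ DD B) : -x ∈ DD B := by
  rcases (mem_filter.1 hx).2 with rfl | h0
  · simpa using zero_D B
  · exact mem_filter.2 ⟨mem_univ _, Or.inr (by rw [h.rr_neg, h0])⟩

lemma Sid.iD_neg (h : Sid B m) (x : G) : iS (DD B) (-x) = iS (DD B) x := by
  unfold iS
  refine if_congr ⟨fun hx => ?_, h.D_neg⟩ rfl rfl
  simpa using h.D_neg hx

lemma Sid.not_V (h : Sid B m) {b : G} (hb : b ∈ B) : b ∉ VV G := fun hv =>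
  h.two b hb (mem_filter.1 hv).2

/-- the sum of a function against the representation function -/
lemma Sid.sum_master (h : Sid B m) (f : G → ℤ) : ∑ y, rr B y * f y =
    2 * ∑ y, f y - 2 * ∑ x ∈ DD B, f x - ∑ b ∈ B, f (b + b) + 2 * m * f 0 := by
  rw [← sumS (DD B), ← sumP, ← sumE 0 f]
  simp only [mul_sum, ← sum_sub_distrib, ← sum_add_distrib]
  refine sum_congr rfl fun y _ => ?_
  rw [h.master]
  ring

lemma Sid.order (h : Sid B m) : (Fintype.card G : ℤ) = 2 * m ^ 2 + (DD B).card := by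
  have h1 := h.sum_master fun _ => 1
  rw [sumR] at h1
  simp [h.card] at h1
  linarith

lemma swapS (S T : Finset G) (g : G) (f : G → ℤ) :
    ∑ x ∈ S, iS T (g - x) * f x = ∑ b ∈ T, iS S (g - b) * f (g - b) := by
  rw [← sumS S, ← sumS T, ← Equiv.sum_comp (Equiv.subLeft g)]
  refine sum_congr rfl fun y _ => ?_
  simp only [Equiv.subLeft_apply, sub_sub_cancel]
  ring

lemma FF_eq (B : Finset G) (g : G) : FF B g = ∑ b ∈ B, iS (DD B) (g - b) := by
  simpa [FF] using swapS (DD B) B g fun _ => 1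

omit [Fintype G] in
lemma UU_eq (B : Finset G) (g : G) : UU B g = ∑ b ∈ B, PP B (g - b) := by
  simp only [UU, PP]
  rw [sum_comm]
  refine sum_congr rfl fun b _ => ?_
  have : ∀ c, iE (b + b) (g - c) = if g - (b + b) = c then 1 else 0 := fun c =>
    if_congr ⟨fun h => by rw [h]; abel, fun h => by rw [← h]; abel⟩ rfl rfl
  simp [this, iS]

lemma Sid.cube (h : Sid B m) (g : G) :
    ∑ b ∈ B, rr B (g - b) = 4 * m - 2 * FF B g - UU B g + 2 * m * iS B g := by
  have e : ∑ b ∈ B, iE 0 (g - b) = iS B g := by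
    have : ∀ c, iE 0 (g - c) = if g = c then 1 else 0 := fun c =>
      if_congr ⟨fun h => (sub_eq_zero.1 h.symm), fun h => (sub_eq_zero.2 h).symm⟩ rfl rfl
    simp [this, iS]
  simp only [h.master, sum_add_distrib, sum_sub_distrib, ← mul_sum, e, ← FF_eq, ← UU_eq]
  simp [h.card]
  ring

omit [Fintype G] in
lemma three_dvd (S : Finset G) (f : G → ℤ) :
    3 ∣ ∑ a ∈ S, ∑ b ∈ S, ∑ c ∈ S, f (a + b + c) - ∑ a ∈ S, f (a + a + a) := by
  induction S using Finset.induction_on with
  | empty => simp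
  | insert x S hx ih =>
    simp only [sum_insert hx, sum_add_distrib]
    have e1 : ∀ a, f (x + a + x) = f (x + x + a) := fun a => by congr 1; abel
    have e2 : ∀ a, f (a + x + x) = f (x + x + a) := fun a => by congr 1; abel
    have e3 : ∀ a b, f (a + x + b) = f (x + a + b) := fun a b => by congr 1; abel
    have e4 : ∀ a b, f (a + b + x) = f (x + a + b) := fun a b => by congr 1; abel
    have e5 : ∑ a ∈ S, ∑ b ∈ S, f (a + x + b) = ∑ a ∈ S, ∑ b ∈ S, f (x + a + b) :=
      sum_congr rfl fun a _ => sum_congr rfl fun b _ => e3 a b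
    have e6 : ∑ a ∈ S, ∑ b ∈ S, f (a + b + x) = ∑ a ∈ S, ∑ b ∈ S, f (x + a + b) :=
      sum_congr rfl fun a _ => sum_congr rfl fun b _ => e4 a b
    have e7 : ∑ a ∈ S, f (x + a + x) = ∑ a ∈ S, f (x + x + a) := sum_congr rfl fun a _ => e1 a
    have e8 : ∑ a ∈ S, f (a + x + x) = ∑ a ∈ S, f (x + x + a) := sum_congr rfl fun a _ => e2 a
    rw [e5, e6, e7, e8]
    obtain ⟨k, hk⟩ := ih
    exact ⟨k + ∑ a ∈ S, f (x + x + a) + ∑ a ∈ S, ∑ b ∈ S, f (x + a + b), by linarith⟩

omit [AddCommGroup G] [Fintype G] in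
lemma two_dvd (S : Finset G) (f : G → G → ℤ) (hf : ∀ a b, f a b = f b a) :
    2 ∣ ∑ a ∈ S, ∑ b ∈ S, f a b - ∑ a ∈ S, f a a := by
  induction S using Finset.induction_on with
  | empty => simp
  | insert x S hx ih =>
    simp only [sum_insert hx, sum_add_distrib]
    have e1 : ∑ a ∈ S, f a x = ∑ a ∈ S, f x a := sum_congr rfl fun a _ => hf a x
    obtain ⟨k, hk⟩ := ih
    exact ⟨k + ∑ a ∈ S, f x a, by linarith⟩

lemma Sid.mod3 (h : Sid B m) {g : G} (hg : g ∉ B) :
    3 ∣ UU B g - m - FF B g - 2 * CC B g := by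
  have h1 := three_dvd B fun x => iE x g
  have h2 : ∑ a ∈ B, ∑ b ∈ B, ∑ c ∈ B, iE (a + b + c) g = ∑ a ∈ B, rr B (g - a) := by
    refine sum_congr rfl fun a _ => sum_congr rfl fun b _ => ?_
    have : ∀ c, iE (a + b + c) g = if g - a - b = c then 1 else 0 := fun c =>
      if_congr ⟨fun h => by rw [← h]; abel, fun h => by rw [← h]; abel⟩ rfl rfl
    simp [this, iS]
  rw [h2, h.cube, iS_no hg] at h1
  change 3 ∣ _ - CC B g at h1
  omega

lemma Sid.onB (h : Sid B m) {g : G} (hg : g ∈ B) : UU B g = 1 ∧ CC B g = 0 ∧ FF B g = 1 := by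
  have u : ∀ b ∈ B, g - (b + b) ∈ B → b = g := fun b hb hc => by
    rcases h.uni b hb b hb g hg _ (h.neg _ hc) (by abel) (h.two b hb) with h1 | h1
    · exact h1
    · have h2 : g = b := by
        have : g - b = b - -(g - (b + b)) := by abel
        rw [← h1, sub_self, sub_eq_zero] at this
        exact this
      exact h2.symm
  refine ⟨?_, ?_, ?_⟩
  · rw [UU, sum_eq_single_of_mem g hg fun b hb hne => iS_no fun hc => hne (u b hb hc)]
    exact iS_yes (by simpa using h.neg g hg)
  · refine sum_eq_zero fun b hb => iE_no fun h3 => ?_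
    have h4 := u b hb (by rw [← h3]; simpa using hb)
    subst h4
    exact h.two b hb (by simpa using h3)
  · rw [FF, sum_eq_single_of_mem 0 (zero_D B) fun x hx hne => iS_no fun hc => ?_]
    · exact iS_yes (by simpa using hg)
    · exact not_D hg (h.neg _ hc) (by simpa using hne) (by simpa using hx)

end Pool.Agent.MP_824cb5_co.Ev
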