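import Pool.Agent.MP_824cb5_co.Ev.Mom

/-! Characters of order two and the parity of the solutions. -/

open Finset

namespace Pool.Agent.MP_824cb5_co.Ev

variable {G : Type} [AddCommGroup G] [Fintype G] [DecidableEq G] {B : Finset G} {m : ℕ}

/-- indicator of the nontrivial class -/
def cc (χ : G →+ ZMod 2) (x : G) : ℤ := if χ x = 1 then 1 else 0

/-- solutions in the other class -/
def WW (B : Finset G) (χ : G →+ ZMod 2) (g : G) : ℤ :=
  ∑ b ∈ B, iS B (g - (b + b)) * cc χ (b - g)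

/-- translates by the missing elements of the nontrivial class -/
def F1 (B : Finset G) (χ : G →+ ZMod 2) (g : G) : ℤ := ∑ x ∈ DD B, iS B (g - x) * cc χ x

section
omit [Fintype G] [DecidableEq G]
variable (χ : G →+ ZMod 2)

lemma cc_nn (x : G) : 0 ≤ cc χ x := by unfold cc; split_ifs <;> simp

lemma cc_le (x : G) : cc χ x ≤ 1 := by unfold cc; split_ifs <;> simp

lemma cc_sq (x : G) : cc χ x * cc χ x = cc χ x := by unfold cc; split_ifs <;> simp

lemma cc_cases (x : G) : cc χ x = 0 ∨ cc χ x = 1 := by unfold cc; split_ifs <;> simp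

lemma cc_add (x y : G) : cc χ (x + y) = cc χ x + cc χ y - 2 * (cc χ x * cc χ y) := by
  unfold cc
  rw [map_add]
  generalize χ x = a
  generalize χ y = b
  revert a b
  decide

lemma cc_neg (x : G) : cc χ (-x) = cc χ x := by
  unfold cc
  rw [map_neg]
  generalize χ x = a
  revert a
  decide

lemma cc_two (x : G) : cc χ (x + x) = 0 := by
  rw [cc_add, cc_sq]
  ring

lemma cc_shift (x y : G) : cc χ (x + (y + y)) = cc χ x := by
  rw [cc_add, cc_two]
  ring

lemma cc_zero : cc χ 0 = 0 := by simpa using cc_two χ 0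

lemma exists_chi {x : G} (hx : ∀ y, y + y ≠ x) : ∃ χ : G →+ ZMod 2, cc χ x = 1 := by
  let H : AddSubgroup G := (nsmulAddMonoidHom 2 : G →+ G).range
  have h2 : ∀ q : G ⧸ H, 2 • q = 0 := by
    intro q
    obtain ⟨y, rfl⟩ := QuotientAddGroup.mk_surjective q
    rw [← QuotientAddGroup.mk_nsmul, QuotientAddGroup.eq_zero_iff]
    exact ⟨y, rfl⟩
  let _ : Module (ZMod 2) (G ⧸ H) := AddCommGroup.zmodModule h2
  have h3 : (x : G ⧸ H) ≠ 0 := by
    rw [Ne, QuotientAddGroup.eq_zero_iff]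
    rintro ⟨y, hy⟩
    exact hx y (by simpa [two_nsmul] using hy)
  obtain ⟨f, hf⟩ : ∃ f : Module.Dual (ZMod 2) (G ⧸ H), f x ≠ 0 := by
    by_contra h4
    push Not at h4
    exact h3 ((Module.forall_dual_apply_eq_zero_iff (ZMod 2) _).1 h4)
  refine ⟨f.toAddMonoidHom.comp (QuotientAddGroup.mk' H), if_pos ?_⟩
  change f x = 1
  generalize f x = a at hf
  revert a
  decide

end

variable (χ : G →+ ZMod 2)

omit [Fintype G] in
lemma WW_nn (B : Finset G) (g : G) : 0 ≤ WW B χ g :=
  sum_nonneg fun _ _ => mul_nonneg (iS_nn _ _) (cc_nn _ _)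

omit [Fintype G] in
lemma WW_le (B : Finset G) (g : G) : WW B χ g ≤ UU B g :=
  sum_le_sum fun _ _ => mul_le_of_le_one_right (iS_nn _ _) (cc_le _ _)

lemma F1_nn (B : Finset G) (g : G) : 0 ≤ F1 B χ g :=
  sum_nonneg fun _ _ => mul_nonneg (iS_nn _ _) (cc_nn _ _)

lemma F1_le (B : Finset G) (g : G) : F1 B χ g ≤ FF B g :=
  sum_le_sum fun _ _ => mul_le_of_le_one_right (iS_nn _ _) (cc_le _ _)

omit [Fintype G] in
lemma PP_cc (B : Finset G) {x : G} (hx : cc χ x = 1) : PP B x = 0 :=
  sum_eq_zero fun b _ => iE_no fun h => by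
    rw [← h, cc_two] at hx
    exact zero_ne_one hx

lemma Sid.rr_cc (h : Sid B m) {x : G} (hx : cc χ x = 1) : rr B x = 2 - 2 * iS (DD B) x := by
  have h0 : (0 : G) ≠ x := fun h0 => by
    rw [← h0, cc_zero] at hx
    exact zero_ne_one hx
  rw [h.master, PP_cc χ B hx, iE_no h0]
  ring

lemma Sid.half (h : Sid B m) {x : G} (hx : cc χ x = 1) (g : G) :
    ∑ b ∈ B, iS B (x - b) * cc χ (b - g) = 1 - iS (DD B) x := by
  have a1 := swapS B B x fun b => cc χ (b - g)
  have a2 : ∑ b ∈ B, iS B (x - b) * cc χ (b - g) + ∑ b ∈ B, iS B (x - b) * cc χ (x - b - g) =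
      rr B x := by
    rw [← sum_add_distrib]
    refine sum_congr rfl fun b _ => ?_
    have b1 := cc_add χ (b - g) (x - b - g)
    rw [show b - g + (x - b - g) = x + (-g + -g) by abel, cc_shift, hx] at b1
    have : cc χ (b - g) + cc χ (x - b - g) = 1 := by
      rcases cc_cases χ (b - g) with h1 | h1 <;> rcases cc_cases χ (x - b - g) with h2 | h2 <;>
        simp only [h1, h2] at b1 ⊢ <;> omega
    rw [← mul_add, this, mul_one]
  rw [h.rr_cc χ hx] at a2
  linarith

lemma Sid.parity (h : Sid B m) (g : G) : 2 ∣ WW B χ g - F1 B χ g := by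
  have a1 := two_dvd B (fun a b => iS B (g - a - b) * (cc χ (a - g) * cc χ (b - g)))
    fun a b => by rw [sub_right_comm, mul_comm (cc χ (a - g))]
  have a2 : ∑ a ∈ B, iS B (g - a - a) * (cc χ (a - g) * cc χ (a - g)) = WW B χ g :=
    sum_congr rfl fun a _ => by rw [cc_sq, sub_sub]
  have a3 : ∀ a ∈ B, ∑ b ∈ B, iS B (g - a - b) * (cc χ (a - g) * cc χ (b - g)) =
      cc χ (a - g) - iS (DD B) (g - a) * cc χ (g - a) := fun a _ => by
    have e : cc χ (g - a) = cc χ (a - g) := by rw [← cc_neg, neg_sub]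
    rcases cc_cases χ (a - g) with h1 | h1
    · simp [e, h1]
    · simp only [e, h1, one_mul, mul_one]
      exact h.half χ (e.trans h1) g
  have a4 := h.even_sum (fun a => cc χ (a - g)) fun a => by
    rw [← cc_shift χ (-a - g) a]
    congr 1
    abel
  have a5 : F1 B χ g = ∑ a ∈ B, iS (DD B) (g - a) * cc χ (g - a) := swapS _ _ _ _
  rw [a2, sum_congr rfl a3, sum_sub_distrib, ← a5] at a1
  omega

omit [DecidableEq G] in
lemma sum_cc {x : G} (hx : cc χ x = 1) : 2 * ∑ y, cc χ y = Fintype.card G := by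
  have a1 : ∑ y, cc χ y = ∑ y, (1 - cc χ y) := by
    rw [← Equiv.sum_comp (Equiv.addRight x)]
    refine sum_congr rfl fun y _ => ?_
    rw [Equiv.coe_addRight, cc_add, hx]
    ring
  rw [sum_sub_distrib] at a1
  simp only [sum_const, card_univ, nsmul_eq_mul, mul_one] at a1
  linarith

lemma Sid.sum_rc (h : Sid B m) {x : G} (hx : cc χ x = 1) :
    ∑ y, rr B y * cc χ y = Fintype.card G - 2 * ∑ y ∈ DD B, cc χ y := by
  rw [h.sum_master, sum_cc χ hx]
  simp [cc_two, cc_zero]

lemma Sid.D1_ge (h : Sid B m) {x : G} (hx : cc χ x = 1) :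
    ((DD B).card : ℤ) ≤ 2 * ∑ y ∈ DD B, cc χ y := by
  have a1 := h.sum_rc χ hx
  rw [sumR] at a1
  simp only [cc_add, sum_add_distrib, sum_sub_distrib, ← mul_sum, ← sum_mul, sum_const, h.card,
    nsmul_eq_mul] at a1
  have := h.order
  push_cast at a1
  nlinarith [sq_nonneg (∑ i ∈ B, cc χ i - m)]

lemma D1_le (B : Finset G) : ∑ y ∈ DD B, cc χ y ≤ (DD B).card := by
  simpa using sum_le_card_nsmul (DD B) _ 1 fun y _ => cc_le χ y

lemma Sid.sumW (h : Sid B m) {x : G} (hx : cc χ x = 1) :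
    (Fintype.card G : ℤ) - 2 * (DD B).card ≤ ∑ g, WW B χ g := by
  have a1 : ∑ g, WW B χ g = ∑ y, rr B y * cc χ y := by
    simp only [WW]
    rw [sum_comm, sumR]
    simp only [shiftS]
    refine sum_congr rfl fun b _ => sum_congr rfl fun c _ => ?_
    rw [← cc_neg]
    congr 1
    abel
  have := D1_le χ B
  rw [a1, h.sum_rc χ hx]
  linarith

lemma Sid.sumWY (h : Sid B m) {x : G} (hx : cc χ x = 1) :
    (Fintype.card G : ℤ) - 4 * (DD B).card - 2 * m * (DD B).card ≤
      ∑ g, WW B χ g * (UU B g - WW B χ g) := by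
  have a1 : ∀ g, 2 * (WW B χ g * (UU B g - WW B χ g)) = ∑ b ∈ B, ∑ c ∈ B,
      iS B (g - (b + b)) * iS B (g - (c + c)) * cc χ (c - b) := fun g => by
    have e : ∀ b c : G, iS B (g - (b + b)) * iS B (g - (c + c)) * cc χ (c - b) =
        iS B (g - (b + b)) * cc χ (b - g) * iS B (g - (c + c)) +
        iS B (g - (b + b)) * (iS B (g - (c + c)) * cc χ (c - g)) -
        2 * (iS B (g - (b + b)) * cc χ (b - g) * (iS B (g - (c + c)) * cc χ (c - g))) := by
      intro b c
      rw [show c - b = (c - g) + -(b - g) by abel, cc_add, cc_neg]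
      ring
    simp only [e, sum_add_distrib, sum_sub_distrib, ← mul_sum, ← sum_mul, WW, UU]
    ring
  have a2 : 2 * ∑ g, WW B χ g * (UU B g - WW B χ g) =
      ∑ y, rr B y * (rr B (y + y) * cc χ y) := by
    rw [mul_sum, sum_congr rfl fun g _ => a1 g, h.sumR', sum_comm]
    refine sum_congr rfl fun b _ => ?_
    rw [sum_comm]
    refine sum_congr rfl fun c _ => ?_
    rw [← sum_mul, h.corr]
    congr 2
    abel
  have a3 : ∀ y, 4 * cc χ y - 4 * iS (DD B) y - 4 * iS (DD B) (y + y) - 2 * PP B (y + y) ≤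
      rr B y * (rr B (y + y) * cc χ y) := fun y => by
    have b1 := iS_nn (DD B) y
    have b2 := iS_nn (DD B) (y + y)
    have b3 := PP_nn B (y + y)
    rcases cc_cases χ y with h1 | h1
    · rw [h1]
      linarith
    · rw [h.rr_cc χ h1, h1]
      by_cases h2 : y ∈ DD B
      · rw [iS_yes h2]
        linarith
      · have b4 := h.master (y + y)
        have b5 := mul_nonneg (by positivity : (0 : ℤ) ≤ 2 * m) (iE_nn 0 (y + y))
        rw [iS_no h2]
        linarith
  have a4 := sum_le_sum fun y (_ : y ∈ univ) => a3 y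
  simp only [sum_sub_distrib, ← mul_sum, sumI, h.sumPtwo] at a4
  have a5 := sum_cc χ hx
  have a6 := h.JJ_le
  have a7 : ((VV G).card : ℤ) ≤ (DD B).card := by exact_mod_cast card_le_card h.V_D
  have a8 := mul_le_mul_of_nonneg_left a7 (by positivity : (0 : ℤ) ≤ 2 * m)
  rw [JJ] at a6
  linarith

/-- a translate by a missing element of the nontrivial class -/
lemma Sid.low (h : Sid B m) {x g : G} (hx : x ∈ DD B) (hc : cc χ x = 1) (hg : g - x ∈ B)
    (hF : FF B g = 1) : g ∉ B ∧ 1 ≤ UU B g := by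
  have h0 : x ≠ 0 := fun h0 => by
    rw [h0, cc_zero] at hc
    exact zero_ne_one hc
  refine ⟨fun hb => not_D hb (h.neg _ hg) (by simpa using h0) (by simpa using hx), ?_⟩
  have a1 := single_le_sum (f := fun y => iS B (g - y) * cc χ y)
    (fun y _ => mul_nonneg (iS_nn _ _) (cc_nn _ _)) hx
  simp only [iS_yes hg, hc] at a1
  have a2 := F1_le χ B g
  have a3 := h.parity χ g
  have a4 := WW_nn χ B g
  have a5 := WW_le χ B g
  change 1 * 1 ≤ F1 B χ g at a1
  omega

lemma Sid.sum_wU (h : Sid B m) {x : G} (hx : x ∈ DD B) :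
    ∑ g, iS B (g - x) * UU B g ≤ 4 * m := by
  have a1 : ∑ g, iS B (g - x) * UU B g = ∑ b ∈ B, rr B (b + b - x) := by
    simp only [UU, mul_sum]
    rw [sum_comm]
    exact sum_congr rfl fun b _ => h.corr _ _
  have a2 := sum_le_card_nsmul B (fun b => rr B (b + b - x)) 2 fun b hb =>
    h.rr_le_two fun h0 => h.ne_D hb hx (by rw [← neg_sub, h0, neg_zero])
  rw [h.card] at a2
  simp only [nsmul_eq_mul] at a2
  push_cast at a2
  linarith

lemma Sid.sum_wF (h : Sid B m) (x : G) :
    ∑ g, iS B (g - x) * FF B g = ∑ y ∈ DD B, rr B (y - x) := by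
  simp only [FF, mul_sum]
  rw [sum_comm]
  exact sum_congr rfl fun b _ => h.corr _ _

/-- two missing elements in the nontrivial class -/
lemma Sid.two_miss (h : Sid B m) (hm : m % 3 = 2) {x y : G} (hx : x ∈ DD B) (hy : y ∈ DD B)
    (hxy : x ≠ y) (cx : cc χ x = 1) (cy : cc χ y = 1) :
    14 * (m : ℤ) ≤ 3 * (∑ z ∈ DD B, rr B (z - x) + ∑ z ∈ DD B, rr B (z - y)) := by
  have pt : ∀ g, 0 ≤ (iS B (g - x) * UU B g + iS B (g - y) * UU B g) + CC B g +
      3 * (iS B (g - x) * FF B g + iS B (g - y) * FF B g) -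
      6 * (iS B (g - x) + iS B (g - y)) := fun g => by
    have b0 : iS B (g - x) + iS B (g - y) ≤ FF B g := by
      have := sum_le_sum_of_subset_of_nonneg (f := fun z => iS B (g - z))
        (show ({x, y} : Finset G) ⊆ DD B by simp [insert_subset_iff, hx, hy])
        fun z _ _ => iS_nn _ _
      rwa [sum_pair hxy] at this
    have b1 := CC_nn B g
    have b2 := UU_nn B g
    have key : ∀ z ∈ DD B, cc χ z = 1 → g - z ∈ B → FF B g = 1 → 3 ≤ UU B g + CC B g := by
      intro z hz cz h1 h2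
      obtain ⟨c1, c2⟩ := h.low χ hz cz h1 h2
      have c3 := h.mod3 c1
      omega
    by_cases h1 : g - x ∈ B <;> by_cases h2 : g - y ∈ B
    · rw [iS_yes h1, iS_yes h2] at b0 ⊢
      omega
    · have := key x hx cx h1
      rw [iS_yes h1, iS_no h2] at b0 ⊢
      omega
    · have := key y hy cy h2
      rw [iS_no h1, iS_yes h2] at b0 ⊢
      omega
    · rw [iS_no h1, iS_no h2]
      omega
  have a1 := sum_nonneg fun g (_ : g ∈ univ) => pt g
  simp only [sum_add_distrib, sum_sub_distrib, ← mul_sum, shift1, h.sumC, h.sum_wF, h.card] at a1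
  have a2 := h.sum_wU hx
  have a3 := h.sum_wU hy
  push_cast at a1
  linarith

end Pool.Agent.MP_824cb5_co.Ev
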