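import Pool.Agent.MP_824cb5_co.Ev.Chi

/-! A small defect forces a small size. -/

open Finset

namespace Pool.Agent.MP_824cb5_co.Ev

variable {G : Type} [AddCommGroup G] [Fintype G] [DecidableEq G] {B : Finset G} {m : ℕ}

lemma quad_nn {t c : ℤ} (hc : 0 ≤ c) (h : 3 ∣ t - 2 * c) : 0 ≤ t * t - 3 * t + 2 * c := by
  rcases le_or_gt t 0 with h1 | h1
  · nlinarith
  rcases le_or_gt 3 t with h2 | h2
  · nlinarith
  interval_cases t <;> omega

lemma cert1 {U W F C : ℤ} (h0 : 0 ≤ W) (h1 : W ≤ U) (hF : 0 ≤ F) (hC : 0 ≤ C)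
    (h : F = 0 → C = 0 → 3 ∣ U - 1 ∧ 2 ∣ W) :
    6 * W + 3 * (W * (U - W)) ≤ U * U + 3 * U - 4 + 6 * F + 6 * C := by
  rcases le_or_gt 6 U with h2 | h2
  · nlinarith [sq_nonneg (U + 2 - 2 * W)]
  have h3 : 0 ≤ U := h0.trans h1
  interval_cases U <;> interval_cases W <;> omega

/-- the basic quadratic form -/
def QQ (B : Finset G) (ρ : ℤ) (g : G) : ℤ :=
  (UU B g - ρ - FF B g) * (UU B g - ρ - FF B g) - 3 * (UU B g - ρ - FF B g) + 2 * CC B g

lemma Sid.sumQ (h : Sid B m) (ρ : ℤ) : ∑ g, QQ B ρ g =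
    ∑ x ∈ DD B, ∑ y ∈ DD B, rr B (y - x) - ∑ v ∈ VV G, (4 * m - 2 * FF B v - UU B v) +
      4 * E3 B - 8 * ρ * m ^ 2 + (4 * ρ - 2) * m * (DD B).card +
      (ρ ^ 2 + 3 * ρ) * (2 * m ^ 2 + (DD B).card) + 4 * m := by
  have e : ∀ g, QQ B ρ g = UU B g * UU B g + FF B g * FF B g - 2 * (UU B g * FF B g) -
      (2 * ρ + 3) * UU B g + (2 * ρ + 3) * FF B g + (ρ ^ 2 + 3 * ρ) + 2 * CC B g := fun g => by
    unfold QQ
    ring
  simp only [e, sum_add_distrib, sum_sub_distrib (f := fun g => UU B g * UU B g +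
    FF B g * FF B g - 2 * (UU B g * FF B g)), sum_sub_distrib (f := fun g => UU B g * UU B g +
    FF B g * FF B g), ← mul_sum, h.sumUU, h.sumFF, h.sumUF, h.sumU, h.sumF, h.sumC, sum_const,
    card_univ, nsmul_eq_mul, h.order]
  ring

lemma Sid.Q_nn (h : Sid B m) {ρ : ℤ} (hρ : 3 ∣ (m : ℤ) - ρ) {g : G} (hg : g ∉ B) :
    0 ≤ QQ B ρ g := by
  refine quad_nn (CC_nn B g) ?_
  have := h.mod3 hg
  omega

omit [DecidableEq G] in
lemma exists_char {z : G} (hz : z ≠ 0) (h2 : z + z = 0) :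
    ∃ (χ : G →+ ZMod 2) (x : G), cc χ x = 1 := by
  have h1 : ¬ Function.Surjective fun y : G => y + y := fun hs =>
    hz (Finite.injective_iff_surjective.2 hs (by simpa using h2))
  obtain ⟨x, hx⟩ := not_forall.1 h1
  obtain ⟨χ, hχ⟩ := exists_chi (x := x) fun y hy => hx ⟨y, hy⟩
  exact ⟨χ, x, hχ⟩

lemma two_of_sum (χ : G →+ ZMod 2) (h2 : 1 < ∑ y ∈ DD B, cc χ y) :
    ∃ x ∈ DD B, ∃ y ∈ DD B, x ≠ y ∧ cc χ x = 1 ∧ cc χ y = 1 := by
  have e : ∑ y ∈ DD B, cc χ y = ((DD B).filter fun y => χ y = 1).card := by simp [cc]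
  rw [e] at h2
  obtain ⟨x, hx, y, hy, hxy⟩ := one_lt_card.1 (by exact_mod_cast h2)
  rw [mem_filter] at hx hy
  exact ⟨x, hx.1, y, hy.1, hxy, if_pos hx.2, if_pos hy.2⟩

lemma Sid.far0 (h : Sid B m) (hm : m % 3 = 0) {z : G} (hz : z ≠ 0) (h2 : z + z = 0) :
    4 * (m : ℤ) ≤ 6 * (DD B).card ^ 2 + 6 * (DD B).card + 8 := by
  have hzV : z ∈ VV G := mem_filter.2 ⟨mem_univ _, h2⟩
  have nn : ∀ g, 0 ≤ QQ B 0 g := fun g => by
    by_cases hg : g ∈ B
    · obtain ⟨a1, a2, a3⟩ := h.onB hg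
      simp [QQ, a1, a2, a3]
    · exact h.Q_nn (by omega) hg
  have a1 := sum_le_sum_of_subset_of_nonneg (f := QQ B 0) (subset_univ {0, z}) fun g _ _ => nn g
  have a2 := sum_le_sum_of_subset_of_nonneg (f := fun v => 4 * (m : ℤ) - 2 * FF B v - UU B v)
    (show ({0, z} : Finset G) ⊆ VV G by simp [insert_subset_iff, zero_V, hzV])
    fun v hv _ => h.cube_nn hv
  rw [sum_pair hz.symm] at a1 a2
  have a3 : ∀ v, UU B v - FF B v - 4 ≤ QQ B 0 v := fun v => by
    have := CC_nn B v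
    unfold QQ
    nlinarith [sq_nonneg (UU B v - FF B v - 2)]
  have a4 := sum_le_card_nsmul (DD B) _ _ fun x _ => h.row_le x
  rw [h.sumQ] at a1
  simp only [nsmul_eq_mul] at a4
  have := a3 0
  have := a3 z
  have := FF_le B 0
  have := FF_le B z
  have := h.E3_le
  nlinarith

lemma Sid.far1 (h : Sid B m) (hm : m % 3 = 1) (χ : G →+ ZMod 2) {x : G} (hx : cc χ x = 1) :
    2 * (m : ℤ) ^ 2 ≤ 18 * m * (DD B).card + 11 * (DD B).card + 12 * m := by
  have pt : ∀ g, 6 * WW B χ g + 3 * (WW B χ g * (UU B g - WW B χ g)) ≤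
      UU B g * UU B g + 3 * UU B g - 4 + 6 * FF B g + 6 * CC B g := fun g =>
    cert1 (WW_nn χ B g) (WW_le χ B g) (FF_nn B g) (CC_nn B g) fun a1 a2 => by
      have a3 := h.mod3 (g := g) fun hg => by
        rw [(h.onB hg).2.2] at a1
        exact one_ne_zero a1
      have a4 := h.parity χ g
      have a5 := F1_nn χ B g
      have a6 := F1_le χ B g
      omega
  have a1 := sum_le_sum fun g (_ : g ∈ univ) => pt g
  simp only [sum_add_distrib, sum_sub_distrib (f := fun g => UU B g * UU B g + 3 * UU B g),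
    ← mul_sum, h.sumUU, h.sumU, h.sumF, h.sumC, sum_const, card_univ, nsmul_eq_mul] at a1
  have a2 := h.sumW χ hx
  have a3 := h.sumWY χ hx
  have a4 := h.E1_ge
  have a5 := sum_nonneg fun v (hv : v ∈ VV G) => h.cube_nn hv
  have a6 := h.order
  have a7 : (0 : ℤ) ≤ m := Nat.cast_nonneg m
  linarith

lemma Sid.defect (h : Sid B m) (hlt : (VV G).card < (DD B).card) :
    (DD B).card ≤ 2 * ((DD B).card - (VV G).card) ∧ ((VV G).card ≠ 1 → 3 ≤ (DD B).card) := by
  have hN : 0 < (VV G).card := card_pos.2 ⟨0, zero_V⟩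
  refine ⟨?_, fun _ => by omega⟩
  by_contra a0
  have a1 := h.resid (m % (VV G).card : ℕ) (m / (VV G).card : ℕ)
    (by exact_mod_cast (Nat.div_add_mod m _).symm)
  have a2 := Nat.mod_lt m hN
  have hdvd : (VV G).card ∣ Fintype.card G := by
    let H : AddSubgroup G :=
      { carrier := {x | x + x = 0}
        add_mem' := fun {a b} ha hb => by
          change a + b + (a + b) = 0
          rw [add_add_add_comm, ha, hb, add_zero]
        zero_mem' := add_zero 0
        neg_mem' := fun {a} ha => by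
          change -a + -a = 0
          rw [← neg_add, ha, neg_zero] }
    have e : Nat.card H = (VV G).card := by
      rw [← Nat.card_eq_finsetCard]
      exact Nat.card_congr (Equiv.subtypeEquivRight fun x => by simp [VV, H])
    rw [← e, ← Nat.card_eq_fintype_card]
    exact H.card_addSubgroup_dvd_card
  have ho : Fintype.card G = 2 * m ^ 2 + (DD B).card := by exact_mod_cast h.order
  generalize (VV G).card = N at *
  generalize (DD B).card = d at *
  rcases Nat.eq_zero_or_pos (m % N) with a3 | a3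
  · have a4 : N ∣ 2 * m ^ 2 := ((Nat.dvd_of_mod_eq_zero a3).pow two_ne_zero).mul_left 2
    rw [ho] at hdvd
    have a5 : N ∣ d - N := Nat.dvd_sub ((Nat.dvd_add_right a4).1 hdvd) dvd_rfl
    have := Nat.le_of_dvd (by omega) a5
    omega
  · generalize m % N = s at *
    have b1 : (1 : ℤ) ≤ s := by exact_mod_cast a3
    have b2 : (s : ℤ) + 1 ≤ N := by exact_mod_cast a2
    have b3 : (N : ℤ) - 1 ≤ s * (N - s) := by nlinarith
    have b4 : 2 * ((N : ℤ) - 1) ≤ d - N := by linarith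
    omega

end Pool.Agent.MP_824cb5_co.Ev
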