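import Pool.Agent.MP_824cb5_co.Ev.Perf1

/-! Identification of the three groups. -/

open Finset

namespace Pool.Agent.MP_824cb5_co.Ev

lemma pow_two_three {r j : ℕ} (h : 2 * 2 ^ r + 1 = 3 ^ j) (h2 : 2 ≤ r) : r = 2 := by
  obtain ⟨s, rfl⟩ := Nat.exists_eq_add_of_le h2
  obtain ⟨i, rfl | rfl⟩ := Nat.even_or_odd' j
  · have a1 : 1 ≤ 3 ^ i := Nat.one_le_pow _ _ (by norm_num)
    obtain ⟨k, hk⟩ := Nat.exists_eq_add_of_le a1
    have a2 : 2 ^ (s + 3) = k * (k + 2) := by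
      rw [pow_mul', hk] at h
      rw [pow_add] at h ⊢
      nlinarith
    obtain ⟨a, -, ha⟩ := (Nat.dvd_prime_pow Nat.prime_two).1 (Dvd.intro _ a2.symm)
    obtain ⟨b, -, hb⟩ := (Nat.dvd_prime_pow Nat.prime_two).1 (Dvd.intro_left _ a2.symm)
    have a4 : 0 < k := Nat.pos_of_mul_pos_right (a2 ▸ Nat.two_pow_pos _)
    have a3 : k = 2 := by
      rcases a with _ | _ | a <;> rcases b with _ | _ | b <;>
        simp only [pow_succ, pow_zero] at ha hb <;> omega
    rw [a3, show 2 * (2 + 2) = 2 ^ 3 by norm_num] at a2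
    have := Nat.pow_right_injective le_rfl a2
    omega
  · have a1 : (3 ^ 2) ^ i % 8 = 1 := by simp [Nat.pow_mod]
    rw [pow_succ, pow_mul, pow_add] at h
    omega

variable {G : Type} [AddCommGroup G]

lemma ind2 {v w : G} (hv : v + v = 0) (hw : w + w = 0) (h1 : v ≠ 0) (h2 : w ≠ 0) (h3 : v ≠ w)
    {i j : ℤ} (h : i • v + j • w = 0) : 2 ∣ i ∧ 2 ∣ j := by
  have e : ∀ (x : G) (k : ℤ), x + x = 0 → k • x = (k % 2) • x := fun x k hx => by
    nth_rewrite 1 [← Int.emod_add_mul_ediv k 2]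
    rw [add_smul, mul_comm, mul_smul, two_smul, hx, smul_zero, add_zero]
  rw [e v i hv, e w j hw] at h
  rcases Int.emod_two_eq_zero_or_one i with a | a <;>
    rcases Int.emod_two_eq_zero_or_one j with b | b <;>
    simp only [a, b, zero_smul, one_smul, zero_add, add_zero] at h
  · omega
  · exact absurd h h2
  · exact absurd h h1
  · exact absurd (add_right_cancel (h.trans hw.symm)) h3

lemma ind3 {v w : G} (hv : v + v + v = 0) (hw : w + w + w = 0) (h1 : v ≠ 0) (h2 : w ≠ 0)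
    (h3 : v ≠ w) (h4 : v ≠ -w) {i j : ℤ} (h : i • v + j • w = 0) : 3 ∣ i ∧ 3 ∣ j := by
  have e : ∀ (x : G) (k : ℤ), x + x + x = 0 → k • x = ((k + 1) % 3 - 1) • x := fun x k hx => by
    have : k = ((k + 1) % 3 - 1) + (k + 1) / 3 * 3 := by omega
    nth_rewrite 1 [this]
    rw [add_smul, mul_smul, show (3 : ℤ) • x = x + x + x by abel, hx, smul_zero, add_zero]
  rw [e v i hv, e w j hw] at h
  obtain a | a | a : (i + 1) % 3 - 1 = 0 ∨ (i + 1) % 3 - 1 = 1 ∨ (i + 1) % 3 - 1 = -1 := by omega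
  all_goals
    obtain b | b | b : (j + 1) % 3 - 1 = 0 ∨ (j + 1) % 3 - 1 = 1 ∨ (j + 1) % 3 - 1 = -1 := by
      omega
  all_goals simp only [a, b, zero_smul, one_smul, neg_smul, zero_add, add_zero, neg_eq_zero] at h
  · omega
  · exact absurd h h2
  · exact absurd h h2
  · exact absurd h h1
  · exact absurd (eq_neg_of_add_eq_zero_left h) h4
  · exact absurd (add_neg_eq_zero.1 h) h3
  · exact absurd h h1
  · exact absurd (neg_add_eq_zero.1 h) h3
  · exact absurd (eq_neg_of_add_eq_zero_left (by rwa [← neg_add, neg_eq_zero] at h)) h4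

lemma iso66 [Finite G] (hc : Nat.card G = 36) {a b : G} (ha : (6 : ℤ) • a = 0)
    (hb : (6 : ℤ) • b = 0) (h : ∀ i j : ℤ, i • a + j • b = 0 → 6 ∣ i ∧ 6 ∣ j) :
    Nonempty (G ≃+ ZMod 6 × ZMod 6) := by
  let f : ZMod 6 × ZMod 6 →+ G :=
    (ZMod.lift 6 ⟨zmultiplesHom G a, ha⟩).coprod (ZMod.lift 6 ⟨zmultiplesHom G b, hb⟩)
  have inj : Function.Injective f := by
    rw [injective_iff_map_eq_zero]
    rintro ⟨x, y⟩ hxy
    obtain ⟨i, rfl⟩ := ZMod.intCast_surjective x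
    obtain ⟨j, rfl⟩ := ZMod.intCast_surjective y
    simp only [f, AddMonoidHom.coprod_apply, ZMod.lift_coe, zmultiplesHom_apply] at hxy
    obtain ⟨h1, h2⟩ := h i j hxy
    rw [Prod.mk_eq_zero, ZMod.intCast_zmod_eq_zero_iff_dvd, ZMod.intCast_zmod_eq_zero_iff_dvd]
    exact ⟨h1, h2⟩
  exact ⟨(AddEquiv.ofBijective f (inj.bijective_of_nat_card_le (by simp [hc]))).symm⟩

lemma iso_cyc [Finite G] {p : ℕ} (hp : p.Prime) (h2 : p ≠ 2) (hc : Nat.card G = 2 * p) :
    Nonempty (G ≃+ ZMod (2 * p)) := by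
  have := Fact.mk hp
  obtain ⟨x, hx⟩ := exists_prime_addOrderOf_dvd_card' (G := G) 2 (hc ▸ Dvd.intro _ rfl)
  obtain ⟨y, hy⟩ := exists_prime_addOrderOf_dvd_card' (G := G) p (hc ▸ Dvd.intro_left _ rfl)
  have a1 : addOrderOf (x + y) = Nat.card G := by
    rw [(AddCommute.all x y).addOrderOf_add_eq_mul_addOrderOf_of_coprime, hx, hy, hc]
    rw [hx, hy]
    exact (Nat.coprime_primes Nat.prime_two hp).2 h2.symm
  exact ⟨(hc ▸ zmodAddCyclicAddEquiv (isAddCyclic_of_addOrderOf_eq_card _ a1)).symm⟩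

variable [Fintype G] [DecidableEq G] {B : Finset G} {m : ℕ}

lemma Sid.perf66 (h : Sid B m) (hD : DD B = VV G) (hm : m % 3 = 1) (h2 : m = (VV G).card)
    (hN : 2 ≤ (VV G).card) : m = 4 ∧ Nonempty (G ≃+ ZMod 6 × ZMod 6) := by
  obtain ⟨a1, a2⟩ := h.perf1b hD hm h2
  have six : ∀ b ∈ B, (6 : ℤ) • b = 0 := fun b hb => by
    rw [← (mem_filter.1 (a2 b hb)).2]
    abel
  have sixG : ∀ g : G, 6 • g = 0 := fun g => by
    by_cases hg : g ∈ DD B
    · rw [hD] at hg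
      rw [show 6 • g = 3 • (g + g) by abel, (mem_filter.1 hg).2, smul_zero]
    · have h1 : g ≠ 0 ∧ rr B g ≠ 0 := by simpa [DD] using hg
      obtain ⟨b, hb, h2⟩ := exists_ne_zero_of_sum_ne_zero h1.2
      have hc : g - b ∈ B := by
        by_contra h3
        exact h2 (iS_no h3)
      rw [show 6 • g = (6 : ℤ) • b + (6 : ℤ) • (g - b) by abel, six b hb, six _ hc, add_zero]
  have ho : Fintype.card G = m * (2 * m + 1) := by
    have := h.order
    rw [hD, ← h2] at this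
    zify
    linarith
  have pr : ∀ p : ℕ, p.Prime → p ∣ m * (2 * m + 1) → p = 2 ∨ p = 3 := fun p hp hd => by
    have := Fact.mk hp
    obtain ⟨x, hx⟩ := exists_prime_addOrderOf_dvd_card (G := G) p (ho ▸ hd)
    have a3 : p ∣ 2 * 3 := hx ▸ addOrderOf_dvd_of_nsmul_eq_zero (sixG x)
    rcases (Nat.Prime.dvd_mul hp).1 a3 with a4 | a4
    · exact Or.inl ((Nat.prime_dvd_prime_iff_eq hp Nat.prime_two).1 a4)
    · exact Or.inr ((Nat.prime_dvd_prime_iff_eq hp Nat.prime_three).1 a4)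
  have e2 := Nat.eq_prime_pow_of_unique_prime_dvd (n := m) (p := 2) (by omega)
    fun {d} hp hd => (pr d hp (hd.mul_right _)).resolve_right fun h3 => by subst h3; omega
  have e3 := Nat.eq_prime_pow_of_unique_prime_dvd (n := 2 * m + 1) (p := 3) (by omega)
    fun {d} hp hd => (pr d hp (hd.mul_left _)).resolve_left fun h3 => by subst h3; omega
  generalize m.primeFactorsList.length = r at e2
  have hr : 2 ≤ r := by
    by_contra h3
    have : r < 2 := by omega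
    interval_cases r <;> omega
  have h4 : m = 4 := by
    rw [pow_two_three (e2 ▸ e3) hr] at e2
    exact e2
  refine ⟨h4, ?_⟩
  obtain ⟨v, hv, w, hw, hvw⟩ := one_lt_card.1 (show 1 < ((VV G).erase 0).card by
    rw [card_erase_of_mem zero_V]
    omega)
  rw [mem_erase] at hv hw
  obtain ⟨a, ha, rfl⟩ := a1 v hv.2
  obtain ⟨b, hb, rfl⟩ := a1 w hw.2
  have w2 := (mem_filter.1 hw.2).2
  refine iso66 (by rw [Nat.card_eq_fintype_card, ho, h4]) (six a ha) (six b hb) fun i j hij => ?_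
  have c2 := ind2 (mem_filter.1 hv.2).2 w2 hv.1 hw.1 hvw (i := i) (j := j)
    (by rw [← smul_zero (3 : ℤ), ← hij]; module)
  have c3 := ind3 (v := a + a) (w := b + b) (by rw [← six a ha]; abel) (by rw [← six b hb]; abel)
    (h.two a ha) (h.two b hb)
    (fun h5 => hvw (by rw [or_self_iff.1 (h.uni a ha a ha b hb b hb h5 (h.two a ha))]))
    (fun h5 => hvw (by
      rw [or_self_iff.1 (h.uni a ha a ha _ (h.neg b hb) _ (h.neg b hb) (by rw [h5]; abel)
        (h.two a ha)), ← sub_eq_zero, ← neg_eq_zero, ← w2]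
      abel)) (i := i) (j := j) (by rw [← smul_zero (2 : ℤ), ← hij]; module)
  omega

theorem Sid.perf (h : Sid B m) (hD : DD B = VV G) (h1 : 1 ≤ m) {z : G} (hz : z ≠ 0)
    (h2 : z + z = 0) (he : 2 ∣ Fintype.card G) :
    (m = 2 ∧ Nonempty (G ≃+ ZMod 10)) ∨ (m = 4 ∧ Nonempty (G ≃+ ZMod 34)) ∨
      (m = 4 ∧ Nonempty (G ≃+ ZMod 6 × ZMod 6)) := by
  have hN := two_le_V hz h2
  obtain hm | hm | hm : m % 3 = 0 ∨ m % 3 = 1 ∨ m % 3 = 2 := by omega
  · exact (h.perf0 hD hm h1 hN).elim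
  · rcases h.perf1 hD hm with a | a
    · exact Or.inr (Or.inr (h.perf66 hD hm a hN))
    · obtain ⟨b1, b2⟩ := h.perf1a hD hm a he
      exact Or.inr (Or.inl ⟨b1, iso_cyc (p := 17) (by norm_num) (by norm_num) (by simp [b2])⟩)
  · obtain ⟨b1, b2⟩ := h.perf2 hD hm hz h2
    exact Or.inl ⟨b1, iso_cyc (p := 5) (by norm_num) (by norm_num) (by simp [b2])⟩

end Pool.Agent.MP_824cb5_co.Ev
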