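import Pool.Agent.MP_824cb5_co.Ev.Iso
import Pool.Agent.MP_824cb5_co.Defs

/-! From `B_2` sets over the integers to symmetric sets, and the three examples. -/

open Finset

namespace Pool.Agent.MP_824cb5_co.Ev

variable {G : Type} [AddCommGroup G]

section
variable [DecidableEq G] {A : Finset G}

/-- coefficient vector of a signed pair -/
def vec (s : ℤ) (a : G) (t : ℤ) (b : G) (x : G) : ℤ :=
  (if x = a then s else 0) + if x = b then t else 0

lemma vec_sum {a b : G} (ha : a ∈ A) (hb : b ∈ A) (s t : ℤ) :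
    ∑ x ∈ A, vec s a t b x • x = s • a + t • b := by
  simp [vec, add_smul, sum_add_distrib, ite_smul, ha, hb]

omit [AddCommGroup G] in
lemma vec_norm {a b : G} (ha : a ∈ A) (hb : b ∈ A) {s t : ℤ} (hs : s = 1 ∨ s = -1)
    (ht : t = 1 ∨ t = -1) (h : a = b → s = t) : ∑ x ∈ A, |vec s a t b x| = (2 : ℕ) := by
  have : ∀ x, |vec s a t b x| = (if x = a then 1 else 0) + if x = b then 1 else 0 := fun x => by
    unfold vec
    split_ifs with h1 h2
    · obtain rfl := h (h1.symm.trans h2)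
      rcases hs with rfl | rfl <;> simp
    · rcases hs with rfl | rfl <;> simp
    · rcases ht with rfl | rfl <;> simp
    · simp
  simp [this, sum_add_distrib, ha, hb]

lemma bh_ne (hA : IsBh 2 A) {a b : G} (ha : a ∈ A) (hb : b ∈ A) {s : ℤ} (hs : s = 1 ∨ s = -1) :
    s • a + s • b ≠ 0 := fun h0 => by
  have := hA (vec s a s b) (vec (-s) a (-s) b) (vec_norm ha hb hs hs fun _ => rfl)
    (vec_norm ha hb (by omega) (by omega) fun _ => rfl)
    (by rw [vec_sum ha hb, vec_sum ha hb, neg_smul, neg_smul, ← neg_add, h0, neg_zero]) a ha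
  simp only [vec, if_true] at this
  split_ifs at this <;> omega

lemma sgn {P Q R : Prop} [Decidable P] [Decidable Q] [Decidable R] {s t u v : ℤ}
    (hs : s = 1 ∨ s = -1) (ht : t = 1 ∨ t = -1) (hu : u = 1 ∨ u = -1) (hv : v = 1 ∨ v = -1)
    (h1 : P → s = t) (h2 : Q → R → u = v)
    (h : (s + if P then t else 0) = (if Q then u else 0) + if R then v else 0) :
    (Q ∧ s = u) ∨ (R ∧ s = v) := by
  by_cases a : P <;> by_cases b : Q <;> by_cases c : R <;>
    simp only [a, b, c, if_true, if_false, true_and, false_and, or_false, false_or, true_imp_iff,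
      false_imp_iff] at h h1 h2 ⊢ <;> omega

lemma sid_of (hA : IsBh 2 A) {S : Finset G} (hS : S ⊆ A) :
    Sid (S ∪ S.image fun x => -x) S.card := by
  have sg : ∀ p ∈ S ∪ S.image fun x => -x, ∃ a ∈ A, ∃ s : ℤ, (s = 1 ∨ s = -1) ∧ p = s • a := by
    intro p hp
    rcases mem_union.1 hp with h | h
    · exact ⟨p, hS h, 1, Or.inl rfl, by simp⟩
    · obtain ⟨a, ha, rfl⟩ := mem_image.1 h
      exact ⟨a, hS ha, -1, Or.inr rfl, by simp⟩
  refine ⟨?_, fun b hb => ?_, fun b hb => ?_, fun p hp q hq r hr w hw h1 h2 => ?_⟩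
  · rw [card_union_of_disjoint, card_image_of_injective _ neg_injective, two_mul]
    refine disjoint_left.2 fun a ha hb => ?_
    obtain ⟨b, hb', rfl⟩ := mem_image.1 hb
    exact bh_ne hA (hS ha) (hS hb') (Or.inl rfl) (by simp)
  · rcases mem_union.1 hb with h | h
    · exact mem_union_right _ (mem_image_of_mem _ h)
    · obtain ⟨a, ha, rfl⟩ := mem_image.1 h
      exact mem_union_left _ (by simpa using ha)
  · obtain ⟨a, ha, s, hs, rfl⟩ := sg b hb
    exact bh_ne hA ha ha hs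
  · have h3 : r + w ≠ 0 := h1 ▸ h2
    obtain ⟨a, ha, s, hs, rfl⟩ := sg p hp
    obtain ⟨b, hb, t, ht, rfl⟩ := sg q hq
    obtain ⟨c, hc, u, hu, rfl⟩ := sg r hr
    obtain ⟨e, he, v, hv, rfl⟩ := sg w hw
    have nn : ∀ (a b : G) (s t : ℤ), (s = 1 ∨ s = -1) → (t = 1 ∨ t = -1) → s • a + t • b ≠ 0 →
        a = b → s = t := by
      rintro a b s t hs ht h0 rfl
      by_contra h4
      exact h0 (by rw [← add_smul, show s + t = 0 by omega, zero_smul])
    have n1 := nn a b s t hs ht h2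
    have n2 := nn c e u v hu hv h3
    have := hA _ _ (vec_norm ha hb hs ht n1) (vec_norm hc he hu hv n2)
      (by rw [vec_sum ha hb, vec_sum hc he, h1]) a ha
    simp only [vec, if_true] at this
    rcases sgn hs ht hu hv n1 (fun k1 k2 => n2 (k1.symm.trans k2)) this with k | k
    · exact Or.inl (by rw [k.1, k.2])
    · exact Or.inr (by rw [k.1, k.2])

end

lemma sigma_bdd [Finite G] :
    BddAbove {k : ℕ | ∃ A : Finset G, A.Nonempty ∧ IsBh 2 A ∧ A.card = k} := by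
  have := Fintype.ofFinite G
  exact ⟨Fintype.card G, by rintro k ⟨A, -, -, rfl⟩; exact card_le_univ A⟩

lemma exists_sid [Finite G] [DecidableEq G] {m : ℕ} (hm : 1 ≤ m) (h : m ≤ sigmaPM G 2) :
    ∃ B : Finset G, Sid B m := by
  have hne : {k : ℕ | ∃ A : Finset G, A.Nonempty ∧ IsBh 2 A ∧ A.card = k}.Nonempty := by
    by_contra h3
    rw [Set.not_nonempty_iff_eq_empty] at h3
    rw [sigmaPM, h3] at h
    simp at h
    omega
  obtain ⟨A, -, hA, hc⟩ := Nat.sSup_mem hne sigma_bdd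
  obtain ⟨S, hS, rfl⟩ := exists_subset_card_eq (show m ≤ A.card by rw [hc]; exact h)
  exact ⟨_, sid_of hA hS⟩

lemma le_sigma [Finite G] {H : Type} [AddCommGroup H] (e : G ≃+ H) {A : Finset H}
    (hne : A.Nonempty) (hA : IsBh 2 A) : A.card ≤ sigmaPM G 2 := by
  refine le_csSup sigma_bdd ⟨A.map e.symm.toEquiv.toEmbedding, by simpa using hne, ?_, card_map _⟩
  intro lam mu h1 h2 h3 a ha
  obtain ⟨b, hb, rfl⟩ := mem_map.1 ha
  rw [sum_map] at h1 h2
  rw [sum_map, sum_map] at h3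
  refine hA (fun x => lam (e.symm x)) (fun x => mu (e.symm x)) h1 h2 (e.symm.injective ?_) b hb
  simpa [map_sum] using h3

/-- finite test for four elements -/
def T4 {H : Type} [AddCommGroup H] (a b c d : H) : Prop :=
  ∀ x ∈ Icc (-2 : ℤ) 2, ∀ y ∈ Icc (-2 : ℤ) 2, ∀ z ∈ Icc (-2 : ℤ) 2, ∀ w ∈ Icc (-2 : ℤ) 2,
    |x| + (|y| + (|z| + |w|)) = 2 → ∀ p ∈ Icc (-2 : ℤ) 2, ∀ q ∈ Icc (-2 : ℤ) 2,
      ∀ r ∈ Icc (-2 : ℤ) 2, ∀ s ∈ Icc (-2 : ℤ) 2, |p| + (|q| + (|r| + |s|)) = 2 →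
        x • a + (y • b + (z • c + w • d)) = p • a + (q • b + (r • c + s • d)) →
          x = p ∧ y = q ∧ z = r ∧ w = s

lemma bh4 {H : Type} [AddCommGroup H] [DecidableEq H] {a b c d : H}
    (h1 : a ∉ ({b, c, d} : Finset H)) (h2 : b ∉ ({c, d} : Finset H)) (h3 : c ≠ d)
    (h : T4 a b c d) : IsBh 2 ({a, b, c, d} : Finset H) := by
  intro lam mu e1 e2 e3
  simp only [sum_insert h1, sum_insert h2, sum_pair h3] at e1 e2 e3
  have k : ∀ x y z w : ℤ, |x| + (|y| + (|z| + |w|)) = 2 → x ∈ Icc (-2 : ℤ) 2 ∧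
      y ∈ Icc (-2 : ℤ) 2 ∧ z ∈ Icc (-2 : ℤ) 2 ∧ w ∈ Icc (-2 : ℤ) 2 := fun x y z w hh => by
    simp only [mem_Icc, abs_eq_max_neg] at *
    omega
  obtain ⟨a1, a2, a3, a4⟩ := k _ _ _ _ e1
  obtain ⟨b1, b2, b3, b4⟩ := k _ _ _ _ e2
  simpa using h _ a1 _ a2 _ a3 _ a4 e1 _ b1 _ b2 _ b3 _ b4 e2 e3

lemma ex34 : IsBh 2 ({1, 2, 8, 13} : Finset (ZMod 34)) :=
  bh4 (by decide) (by decide) (by decide) (by unfold T4; decide +kernel)

lemma ex36 : IsBh 2 ({(1, 0), (0, 1), (1, 1), (4, 2)} : Finset (ZMod 6 × ZMod 6)) :=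
  bh4 (by decide) (by decide) (by decide) (by unfold T4; decide +kernel)

lemma ex10 : IsBh 2 ({1, 2} : Finset (ZMod 10)) := by
  intro lam mu e1 e2 e3
  simp only [sum_pair (show (1 : ZMod 10) ≠ 2 by decide)] at e1 e2 e3
  have k : ∀ x y : ℤ, |x| + |y| = 2 → x ∈ Icc (-2 : ℤ) 2 ∧ y ∈ Icc (-2 : ℤ) 2 := fun x y hh => by
    simp only [mem_Icc, abs_eq_max_neg] at *
    omega
  have h : ∀ x ∈ Icc (-2 : ℤ) 2, ∀ y ∈ Icc (-2 : ℤ) 2, |x| + |y| = 2 → ∀ p ∈ Icc (-2 : ℤ) 2,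
      ∀ q ∈ Icc (-2 : ℤ) 2, |p| + |q| = 2 →
        x • (1 : ZMod 10) + y • 2 = p • 1 + q • 2 → x = p ∧ y = q := by decide +kernel
  simpa using h _ (k _ _ e1).1 _ (k _ _ e1).2 e1 _ (k _ _ e2).1 _ (k _ _ e2).2 e2 e3

lemma card_V [Fintype G] [DecidableEq G] :
    1 + Nat.card {x : G // addOrderOf x = 2} = (VV G).card := by
  have e : Nat.card {x : G // addOrderOf x = 2} = ((VV G).erase 0).card := by
    rw [← Nat.card_eq_finsetCard]
    refine Nat.card_congr (Equiv.subtypeEquivRight fun x => ?_)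
    simp [addOrderOf_eq_prime_iff, VV, two_nsmul, and_comm]
  rw [e, add_comm, card_erase_add_one zero_V]

theorem main [Finite G] {m : ℕ} (hm : 1 ≤ m) (he : Even (Nat.card G))
    (hn : (Nat.card G : ℝ) < 2 * m ^ 2 + max (2 * (1 + Nat.card {x : G // addOrderOf x = 2}) : ℝ)
      (if 3 ∣ m then √(2 * m / 3) - 1 else (m - 6) / 9)) :
    m ≤ sigmaPM G 2 ↔ (m = 2 ∧ Nonempty (G ≃+ ZMod 10)) ∨ (m = 4 ∧ Nonempty (G ≃+ ZMod 34)) ∨
      (m = 4 ∧ Nonempty (G ≃+ ZMod 6 × ZMod 6)) := by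
  classical
  have := Fintype.ofFinite G
  constructor
  · intro h
    obtain ⟨B, hB⟩ := exists_sid hm h
    obtain ⟨z, hz⟩ := exists_prime_addOrderOf_dvd_card' (G := G) 2 he.two_dvd
    obtain ⟨z2, z0⟩ := addOrderOf_eq_prime_iff.1 hz
    rw [two_nsmul] at z2
    by_cases hD : DD B = VV G
    · exact hB.perf hD hm z0 z2 (by simpa using he.two_dvd)
    exfalso
    have a1 : (VV G).card < (DD B).card :=
      card_lt_card (hB.V_D.ssubset_of_ne (Ne.symm hD))
    have a2 := two_le_V z0 z2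
    have a3 := (hB.defect a1).1
    have a4 : (Nat.card G : ℝ) = 2 * m ^ 2 + (DD B).card := by
      rw [Nat.card_eq_fintype_card]
      exact_mod_cast hB.order
    have a5 : (1 + Nat.card {x : G // addOrderOf x = 2} : ℝ) = (VV G).card := by
      exact_mod_cast card_V
    rw [a4, a5, add_lt_add_iff_left, lt_max_iff] at hn
    have hd : (4 : ℤ) ≤ (DD B).card := by omega
    rcases hn with hn | hn
    · have : (DD B).card < 2 * (VV G).card := by exact_mod_cast hn
      omega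
    split_ifs at hn with h3
    · have b1 := hB.far0 (by omega) z0 z2
      have b2 : (((DD B).card : ℝ) + 1) ^ 2 < 2 * m / 3 :=
        (Real.lt_sqrt (by positivity)).1 (by linarith)
      have b3 : (3 * ((DD B).card + 1) ^ 2 : ℤ) < 2 * m := by
        have : (3 * ((DD B).card + 1) ^ 2 : ℝ) < 2 * m := by linarith
        exact_mod_cast this
      nlinarith
    · have b3 : (9 * (DD B).card + 6 : ℤ) < m := by
        have : (9 * (DD B).card + 6 : ℝ) < m := by linarith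
        exact_mod_cast this
      obtain ⟨χ, x, hx⟩ := exists_char z0 z2
      obtain hm3 | hm3 : m % 3 = 1 ∨ m % 3 = 2 := by omega
      · nlinarith [hB.far1 hm3 χ hx]
      · have b1 := hB.D1_ge χ hx
        obtain ⟨a, ha, b, hb, hab, ca, cb⟩ := two_of_sum (B := B) χ (by omega)
        have b2 := hB.two_miss χ hm3 ha hb hab ca cb
        have b4 := hB.row_le a
        have b5 := hB.row_le b
        linarith
  · rintro (⟨rfl, ⟨e⟩⟩ | ⟨rfl, ⟨e⟩⟩ | ⟨rfl, ⟨e⟩⟩)
    · exact le_sigma e (by simp) ex10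
    · exact le_sigma e (by simp) ex34
    · exact le_sigma e (by simp) ex36

end Pool.Agent.MP_824cb5_co.Ev
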