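import Pool.Agent.MP_824cb5_co.Ev.Basic

/-! Moments, classes modulo doubles, and parity. -/

open Finset

namespace Pool.Agent.MP_824cb5_co.Ev

variable {G : Type} [AddCommGroup G] [Fintype G] [DecidableEq G] {B : Finset G} {m : ℕ}

/-- differences whose double is missing -/
def E1 (B : Finset G) : ℤ := ∑ y, rr B y * iS (DD B) (y + y)

/-- doubles that are differences of missing elements -/
def E3 (B : Finset G) : ℤ := ∑ x ∈ DD B, ∑ y ∈ DD B, PP B (x - y)

/-- elements whose double is missing -/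
def JJ (B : Finset G) : ℤ := ∑ y, iS (DD B) (y + y)

/-- number of halves -/
def pre (x : G) : ℤ := ∑ y, iE (y + y) x

/-- weighted class sizes -/
def KK (B : Finset G) (g : G) : ℤ := ∑ b ∈ B, pre (g - b)

lemma iE_two (b y : G) : iE (b + b) (y + y) = iS (VV G) (y - b) := by
  unfold iE iS
  refine if_congr ?_ rfl rfl
  simp only [VV, mem_filter, mem_univ, true_and]
  constructor
  · intro h
    rw [← sub_eq_zero.2 h.symm]
    abel
  · intro h
    rw [eq_comm, ← sub_eq_zero, ← h]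
    abel

lemma iE_zero (y : G) : iE 0 (y + y) = iS (VV G) y := by simpa using iE_two 0 y

lemma zero_V : (0 : G) ∈ VV G := by simp [VV]

lemma Sid.sumU (h : Sid B m) : ∑ g, UU B g = 4 * m ^ 2 := by
  simp only [UU]
  rw [sum_comm]
  simp only [shift1]
  simp [h.card]
  ring

lemma Sid.sumF (h : Sid B m) : ∑ g, FF B g = 2 * m * (DD B).card := by
  simp only [FF]
  rw [sum_comm]
  simp only [shift1]
  simp [h.card]
  ring

lemma Sid.sumC (h : Sid B m) : ∑ g, CC B g = 2 * m := by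
  rw [Ev.sumC, h.card]
  simp

lemma Sid.sumB (h : Sid B m) : ∑ g, iS B g = 2 * m := by
  simpa [h.card] using shift1 B 0

omit [AddCommGroup G] in
lemma sumI (S : Finset G) : ∑ g, iS S g = S.card := by simp [iS]

lemma Sid.sumr (h : Sid B m) : ∑ g, rr B g = 4 * m ^ 2 := by
  have h1 := sumR B fun _ => 1
  simp [h.card] at h1
  linarith

lemma Sid.bil (h : Sid B m) {ι κ : Type} (S : Finset ι) (T : Finset κ) (a : ι → G) (c : κ → G) :
    ∑ g, (∑ i ∈ S, iS B (g - a i)) * ∑ j ∈ T, iS B (g - c j) =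
      ∑ i ∈ S, ∑ j ∈ T, rr B (c j - a i) := by
  simp only [sum_mul_sum]
  rw [sum_comm]
  refine sum_congr rfl fun i _ => ?_
  rw [sum_comm]
  exact sum_congr rfl fun j _ => h.corr _ _

lemma Sid.UU_rr (h : Sid B m) : ∑ g, UU B g * UU B g = ∑ y, rr B y * rr B (y + y) := by
  simp only [UU]
  rw [h.bil, h.sumR']
  refine sum_congr rfl fun b _ => sum_congr rfl fun c _ => ?_
  congr 1
  abel

lemma Sid.rV (h : Sid B m) : ∑ y, rr B y * iE 0 (y + y) = 2 * m := by
  simp only [iE_zero, mul_comm (rr B _)]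
  rw [sumS, sum_eq_single_of_mem 0 zero_V fun v hv h0 => rr_D (h.V_D hv) h0, h.rr_zero]

lemma Sid.rP (h : Sid B m) : ∑ y, rr B y * PP B (y + y) =
    ∑ v ∈ VV G, (4 * m - 2 * FF B v - UU B v) := by
  simp only [PP, sum_mul, iE_two, mul_comm (rr B _)]
  rw [sum_comm]
  simp only [shiftS]
  rw [sum_comm]
  refine sum_congr rfl fun v hv => ?_
  have h1 := h.cube v
  rw [iS_no fun hb => h.not_V hb hv, ← h.sum_neg] at h1
  simpa using h1

lemma Sid.cube_nn (h : Sid B m) {v : G} (hv : v ∈ VV G) : 0 ≤ 4 * m - 2 * FF B v - UU B v := by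
  have h1 := h.cube v
  rw [iS_no fun hb => h.not_V hb hv] at h1
  have := sum_nonneg fun b (_ : b ∈ B) => rr_nn B (v - b)
  linarith

lemma Sid.sumUU (h : Sid B m) : ∑ g, UU B g * UU B g =
    12 * m ^ 2 - 2 * E1 B - ∑ v ∈ VV G, (4 * m - 2 * FF B v - UU B v) := by
  have e : ∀ y, rr B y * rr B (y + y) = 2 * rr B y - 2 * (rr B y * iS (DD B) (y + y)) -
      rr B y * PP B (y + y) + 2 * m * (rr B y * iE 0 (y + y)) := fun y => by
    rw [h.master (y + y)]
    ring
  rw [h.UU_rr]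
  simp only [e, sum_add_distrib, sum_sub_distrib, ← mul_sum, h.sumr, h.rV, h.rP, E1]
  ring

lemma Sid.sumFF (h : Sid B m) :
    ∑ g, FF B g * FF B g = ∑ x ∈ DD B, ∑ y ∈ DD B, rr B (y - x) := h.bil _ _ _ _

lemma Sid.ne_D (h : Sid B m) {b x : G} (hb : b ∈ B) (hx : x ∈ DD B) : x - (b + b) ≠ 0 := by
  intro h0
  exact not_D hb hb (h.two b hb) (sub_eq_zero.1 h0 ▸ hx)

lemma Sid.sumUF (h : Sid B m) :
    ∑ g, UU B g * FF B g = 4 * m * (DD B).card - 2 * E3 B - E1 B := by
  have e0 : ∑ g, UU B g * FF B g = ∑ b ∈ B, ∑ x ∈ DD B, rr B (x - (b + b)) := h.bil _ _ _ _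
  have e1 : ∀ b ∈ B, ∑ x ∈ DD B, rr B (x - (b + b)) = ∑ x ∈ DD B,
      (2 - 2 * iS (DD B) (x - (b + b)) - PP B (x - (b + b))) := fun b hb =>
    sum_congr rfl fun x hx => by rw [h.master, iE_no (h.ne_D hb hx).symm]; ring
  have e2 : ∑ b ∈ B, ∑ x ∈ DD B, iS (DD B) (x - (b + b)) = E3 B := by
    rw [sum_comm]
    refine sum_congr rfl fun x _ => ?_
    rw [← sumP B fun y => iS (DD B) (x - y), ← sumS (DD B), ← Equiv.sum_comp (Equiv.subLeft x)]
    exact sum_congr rfl fun y _ => by simp [mul_comm]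
  have e3 : ∑ b ∈ B, ∑ x ∈ DD B, PP B (x - (b + b)) = E1 B := by
    rw [E1, sumR]
    refine sum_congr rfl fun b _ => ?_
    rw [← sumS, ← Equiv.sum_comp (Equiv.addRight (b + b))]
    simp only [Equiv.coe_addRight, add_sub_cancel_right, mul_comm (iS _ _)]
    rw [sumP]
    refine sum_congr rfl fun c _ => ?_
    congr 1
    abel
  rw [e0, sum_congr rfl e1]
  simp only [sum_sub_distrib, ← mul_sum, e2, e3]
  simp [h.card]
  ring

lemma Sid.E1_ge (h : Sid B m) : 2 * m ≤ E1 B := by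
  have := single_le_sum (f := fun y => rr B y * iS (DD B) (y + y))
    (fun y _ => mul_nonneg (rr_nn B y) (iS_nn _ _)) (mem_univ 0)
  simpa [h.rr_zero, iS_yes (zero_D B), E1] using this

lemma Sid.E1_le (h : Sid B m) : E1 B ≤ 2 * m + 2 * JJ B := by
  have : E1 B ≤ ∑ y, (2 * iS (DD B) (y + y) + 2 * m * (iE 0 y * 1)) := sum_le_sum fun y _ => by
    have a1 := mul_le_mul_of_nonneg_right (h.rr_le y) (iS_nn (DD B) (y + y))
    have a2 := mul_le_mul_of_nonneg_left (iS_le (DD B) (y + y))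
      (mul_nonneg (by positivity : (0 : ℤ) ≤ 2 * m) (iE_nn 0 y))
    linarith
  simp only [sum_add_distrib, ← mul_sum, sumE] at this
  rw [JJ]
  linarith

lemma Sid.E3_le (h : Sid B m) : E3 B ≤ (DD B).card * (DD B).card := by
  have : E3 B ≤ ∑ _x ∈ DD B, ∑ _y ∈ DD B, (1 : ℤ) :=
    sum_le_sum fun x _ => sum_le_sum fun y _ => h.PP_le _
  simpa using this

lemma Sid.row_le (h : Sid B m) (x : G) :
    ∑ y ∈ DD B, rr B (y - x) ≤ 2 * m + 2 * (DD B).card := by
  have a1 : ∑ y ∈ DD B, rr B (y - x) ≤ ∑ y ∈ DD B, (2 + 2 * m * iE 0 (y - x)) :=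
    sum_le_sum fun y _ => h.rr_le _
  have a2 : ∑ y ∈ DD B, iE 0 (y - x) = iS (DD B) x := by
    have : ∀ y, iE 0 (y - x) = if y = x then 1 else 0 := fun y =>
      if_congr ⟨fun h => (sub_eq_zero.1 h.symm), fun h => (sub_eq_zero.2 h).symm⟩ rfl rfl
    simp [this, iS]
  have a3 := mul_le_mul_of_nonneg_left (iS_le (DD B) x) (by positivity : (0 : ℤ) ≤ 2 * m)
  simp only [sum_add_distrib, ← mul_sum, a2, sum_const, nsmul_eq_mul] at a1
  linarith

/-! classes modulo doubles -/

lemma pre_two (b : G) : pre (b + b) = (VV G).card := by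
  have : ∀ y, iE (y + y) (b + b) = iS (VV G) (y - b) := fun y => by
    rw [← iE_two]
    exact if_congr eq_comm rfl rfl
  simp only [pre, this, shift1]

lemma pre_cases (x : G) : pre x = 0 ∨ pre x = (VV G).card := by
  by_cases hx : ∃ y, y + y = x
  · obtain ⟨y, rfl⟩ := hx
    exact Or.inr (pre_two y)
  · exact Or.inl (sum_eq_zero fun y _ => iE_no fun h => hx ⟨y, h⟩)

lemma pre_nn (x : G) : 0 ≤ pre x := sum_nonneg fun _ _ => iE_nn _ _

lemma pre_shift (x b : G) : pre (x + (b + b)) = pre x := by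
  rw [pre, ← Equiv.sum_comp (Equiv.addRight b)]
  refine sum_congr rfl fun y _ => if_congr ?_ rfl rfl
  simp only [Equiv.coe_addRight]
  constructor
  · intro h
    rw [← add_right_cancel_iff (a := b + b), ← h]
    abel
  · intro h
    rw [← h]
    abel

lemma sumPre (f : G → ℤ) : ∑ x, pre x * f x = ∑ y, f (y + y) := by
  simp only [pre, sum_mul]
  rw [sum_comm]
  exact sum_congr rfl fun b _ => sumE _ _

omit [Fintype G] in
lemma Sid.even_sum (h : Sid B m) (f : G → ℤ) (hf : ∀ b, f (-b) = f b) : 2 ∣ ∑ b ∈ B, f b := by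
  have h1 := two_dvd B (fun a b => iE (a + b) 0 * f a) fun a b => by
    by_cases h2 : a + b = 0
    · rw [add_comm b a, ← hf b, neg_eq_of_add_eq_zero_left h2]
    · rw [iE_no h2, iE_no (by rwa [add_comm]), zero_mul, zero_mul]
  have h2 : ∑ a ∈ B, iE (a + a) 0 * f a = 0 :=
    sum_eq_zero fun a ha => by rw [iE_no (h.two a ha), zero_mul]
  have h3 : ∀ a ∈ B, ∑ b ∈ B, iE (a + b) 0 * f a = f a := fun a ha => by
    rw [sum_eq_single_of_mem (-a) (h.neg a ha) fun b _ hb => by
      rw [iE_no fun h4 => hb (eq_neg_of_add_eq_zero_right h4), zero_mul]]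
    simp [iE]
  rwa [h2, sum_congr rfl h3, sub_zero] at h1

lemma KK_eq (B : Finset G) (g : G) : KK B g = ∑ y, iS B (g - (y + y)) := by
  rw [← sumPre fun x => iS B (g - x), KK, ← sumS, ← Equiv.sum_comp (Equiv.subLeft g)]
  exact sum_congr rfl fun y _ => by simp [mul_comm]

lemma Sid.KK_dvd (h : Sid B m) (g : G) : ∃ k : ℤ, KK B g = 2 * (VV G).card * k := by
  have e : ∀ x : G, pre x = (VV G).card * if pre x = 0 then 0 else 1 := fun x => by
    rcases pre_cases x with h1 | h1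
    · simp [h1]
    · split_ifs with h2
      · simp [h2]
      · simp [h1]
  obtain ⟨k, hk⟩ := h.even_sum (fun b => if pre (g - b) = 0 then 0 else 1) fun b => by
    rw [← pre_shift (g - b) b, show g - b + (b + b) = g - -b by abel]
  refine ⟨k, ?_⟩
  rw [KK, sum_congr rfl fun b _ => e (g - b), ← mul_sum, hk]
  ring

lemma Sid.sumPtwo (h : Sid B m) : ∑ y, PP B (y + y) = 2 * m * (VV G).card := by
  rw [← sumPre]
  simp only [mul_comm (pre _)]
  rw [sumP]
  simp [pre_two, h.card]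

lemma Sid.varK (h : Sid B m) : ∑ g, (KK B g - 2 * m) = 0 ∧
    ∑ g, (KK B g - 2 * m) ^ 2 = 2 * Fintype.card G * ((DD B).card - JJ B) := by
  have a1 : ∑ g, KK B g = 2 * m * Fintype.card G := by
    simp only [KK_eq]
    rw [sum_comm]
    simp only [shift1]
    simp [h.card]
    ring
  have a2 : ∑ y, rr B (y + y) = 2 * Fintype.card G - 2 * JJ B := by
    simp only [h.master, sum_add_distrib, sum_sub_distrib, ← mul_sum, h.sumPtwo, iE_zero, sumI, JJ]
    simp
    ring
  have a3 : ∑ g, KK B g * KK B g = Fintype.card G * (2 * Fintype.card G - 2 * JJ B) := by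
    simp only [KK_eq]
    rw [h.bil, ← a2]
    have : ∀ y : G, ∑ z, rr B (z + z - (y + y)) = ∑ z, rr B (z + z) := fun y => by
      rw [← Equiv.sum_comp (Equiv.addRight y)]
      refine sum_congr rfl fun z _ => ?_
      congr 1
      simp only [Equiv.coe_addRight]
      abel
    simp [this]
  have e : ∀ g, (KK B g - 2 * m) ^ 2 = KK B g * KK B g - 4 * m * KK B g + 4 * m ^ 2 :=
    fun g => by ring
  constructor
  · simp only [sum_sub_distrib, a1]
    simp
    ring
  · simp only [e, sum_add_distrib, sum_sub_distrib, ← mul_sum, a1, a3]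
    simp only [sum_const, card_univ, nsmul_eq_mul]
    have := h.order
    linear_combination (2 * Fintype.card G : ℤ) * this

lemma JJ_ge (B : Finset G) : ((VV G).card : ℤ) ≤ JJ B := by
  rw [← sumI]
  refine sum_le_sum fun y _ => ?_
  by_cases hy : y ∈ VV G
  · rw [iS_yes hy, (mem_filter.1 hy).2, iS_yes (zero_D B)]
  · rw [iS_no hy]; exact iS_nn _ _

lemma Sid.JJ_le (h : Sid B m) : JJ B ≤ (DD B).card := by
  have h1 : 0 ≤ ∑ g, (KK B g - 2 * m) ^ 2 := sum_nonneg fun _ _ => sq_nonneg _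
  rw [h.varK.2] at h1
  have h2 : (0 : ℤ) < 2 * Fintype.card G := by
    have := Fintype.card_pos (α := G)
    positivity
  have := nonneg_of_mul_nonneg_right h1 h2
  linarith

lemma Sid.resid (h : Sid B m) (s q : ℤ) (hs : (m : ℤ) = (VV G).card * q + s) :
    2 * s * ((VV G).card - s) ≤ (DD B).card - (VV G).card := by
  obtain ⟨a1, a2⟩ := h.varK
  have hN : (0 : ℤ) ≤ (VV G).card := Nat.cast_nonneg _
  have pt : ∀ g, 0 ≤ (KK B g - 2 * m) ^ 2 + (4 * s - 2 * (VV G).card) * (KK B g - 2 * m) -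
      4 * s * ((VV G).card - s) := fun g => by
    obtain ⟨k, hk⟩ := h.KK_dvd g
    have b1 : 0 ≤ (k - q) * (k - q - 1) := by
      rcases le_or_gt (k - q) 0 with h1 | h1
      · exact mul_nonneg_of_nonpos_of_nonpos h1 (by linarith)
      · exact mul_nonneg h1.le (by linarith)
    have b2 := mul_nonneg (mul_nonneg hN hN) b1
    rw [hk, hs]
    nlinarith
  have h1 := sum_nonneg fun g (_ : g ∈ univ) => pt g
  simp only [sum_add_distrib, sum_sub_distrib (f := fun g => (KK B g - 2 * m) ^ 2 +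
    (4 * s - 2 * (VV G).card) * (KK B g - 2 * m)), ← mul_sum, a1, a2, sum_const, card_univ,
    nsmul_eq_mul] at h1
  have h2 : (0 : ℤ) < 2 * Fintype.card G := by
    have := Fintype.card_pos (α := G)
    positivity
  have h3 : 0 ≤ 2 * Fintype.card G * ((DD B).card - JJ B - 2 * s * ((VV G).card - s)) := by
    linarith
  have := nonneg_of_mul_nonneg_right h3 h2
  have := JJ_ge B
  linarith

end Pool.Agent.MP_824cb5_co.Ev
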