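import Pool.Agent.MP_824cb5_co.Ev.Far

/-! The case with no defect: basic facts and the residues zero and two. -/

open Finset

namespace Pool.Agent.MP_824cb5_co.Ev

variable {G : Type} [AddCommGroup G] [Fintype G] [DecidableEq G] {B : Finset G} {m : ℕ}

lemma V_sub {x y : G} (hx : x ∈ VV G) (hy : y ∈ VV G) : x - y ∈ VV G := by
  simp only [VV, mem_filter, mem_univ, true_and] at *
  rw [sub_add_sub_comm, hx, hy, sub_zero]

lemma Sid.prow (h : Sid B m) (hD : DD B = VV G) {x : G} (hx : x ∈ DD B) :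
    ∑ y ∈ DD B, rr B (y - x) = 2 * m := by
  rw [sum_eq_single_of_mem x hx fun y hy hne =>
    rr_D (by rw [hD] at *; exact V_sub hy hx) (sub_ne_zero.2 hne), sub_self, h.rr_zero]

lemma Sid.pFF (h : Sid B m) (hD : DD B = VV G) :
    ∑ x ∈ DD B, ∑ y ∈ DD B, rr B (y - x) = 2 * m * (VV G).card := by
  rw [sum_congr rfl fun x hx => h.prow hD hx, hD]
  simp [mul_comm]

lemma Sid.pE3 (h : Sid B m) (hD : DD B = VV G) : E3 B = 0 :=
  sum_eq_zero fun x hx => sum_eq_zero fun y hy => h.PP_D (by rw [hD] at *; exact V_sub hx hy)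

lemma Sid.pJ (h : Sid B m) (hD : DD B = VV G) : JJ B = (DD B).card :=
  le_antisymm h.JJ_le (hD ▸ JJ_ge B)

lemma Sid.pE1 (h : Sid B m) (hD : DD B = VV G) : E1 B = 2 * m := by
  have a0 : ∀ y, 0 ≤ iS (DD B) (y + y) - iS (VV G) y := fun y => by
    by_cases hy : y ∈ VV G
    · rw [iS_yes hy, (mem_filter.1 hy).2, iS_yes (zero_D B), sub_self]
    · rw [iS_no hy, sub_zero]; exact iS_nn _ _
  have a1 : ∑ y, (iS (DD B) (y + y) - iS (VV G) y) = 0 := by
    rw [sum_sub_distrib, sumI, ← hD, ← h.pJ hD, JJ, sub_self]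
  have a2 := (sum_eq_zero_iff_of_nonneg fun y _ => a0 y).1 a1
  rw [← h.rV]
  refine sum_congr rfl fun y _ => ?_
  rw [iE_zero, sub_eq_zero.1 (a2 y (mem_univ y))]

lemma Sid.pFV (h : Sid B m) (hD : DD B = VV G) {v : G} (hv : v ∈ VV G) : FF B v = 0 :=
  sum_eq_zero fun _ hx => iS_no fun hb => h.not_V hb (V_sub hv (hD ▸ hx))

lemma Sid.pF (h : Sid B m) (hD : DD B = VV G) (g : G) : FF B g ≤ 1 := by
  have a0 : ∀ y, 0 ≤ FF B y * FF B y - FF B y := fun y => by
    have := FF_nn B y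
    rcases this.eq_or_lt with h1 | h1
    · rw [← h1]; simp
    · nlinarith
  have a1 : ∑ y, (FF B y * FF B y - FF B y) = 0 := by
    rw [sum_sub_distrib, h.sumFF, h.pFF hD, h.sumF, hD, sub_self]
  have a2 := (sum_eq_zero_iff_of_nonneg fun y _ => a0 y).1 a1 g (mem_univ g)
  by_contra a3
  nlinarith

lemma Sid.pK (h : Sid B m) (hD : DD B = VV G) (g : G) : KK B g = 2 * m := by
  have a1 := h.varK.2
  rw [h.pJ hD, sub_self, mul_zero] at a1
  have a2 := (sum_eq_zero_iff_of_nonneg fun y _ => sq_nonneg _).1 a1 g (mem_univ g)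
  exact sub_eq_zero.1 (pow_eq_zero_iff two_ne_zero |>.1 a2)

lemma Sid.pdvd (h : Sid B m) (hD : DD B = VV G) : (VV G).card ∣ m := by
  obtain ⟨k, hk⟩ := h.KK_dvd 0
  rw [h.pK hD] at hk
  exact Int.natCast_dvd_natCast.1 ⟨k, by linarith⟩

lemma Sid.pV (h : Sid B m) (hD : DD B = VV G) :
    ∑ v ∈ VV G, (4 * m - 2 * FF B v - UU B v) =
      4 * m * (VV G).card - ∑ g, iS (VV G) g * UU B g := by
  rw [sum_congr rfl fun v hv => by rw [h.pFV hD hv], sumS]
  simp [mul_comm]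

lemma Sid.pQ (h : Sid B m) (hD : DD B = VV G) (ρ : ℤ) : ∑ g, QQ B ρ g =
    ∑ g, iS (VV G) g * UU B g - 8 * ρ * m ^ 2 + (4 * ρ - 4) * m * (VV G).card +
      (ρ ^ 2 + 3 * ρ) * (2 * m ^ 2 + (VV G).card) + 4 * m := by
  rw [h.sumQ, h.pFF hD, h.pV hD, h.pE3 hD, hD]
  ring

lemma two_le_V {z : G} (hz : z ≠ 0) (h2 : z + z = 0) : 2 ≤ (VV G).card := by
  have := card_le_card (show ({0, z} : Finset G) ⊆ VV G by simp [insert_subset_iff, VV, h2])
  rwa [card_pair hz.symm] at this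

lemma Sid.perf0 (h : Sid B m) (hD : DD B = VV G) (hm : m % 3 = 0) (h1 : 1 ≤ m)
    (hN : 2 ≤ (VV G).card) : False := by
  have pt : ∀ g, 0 ≤ QQ B 0 g - iS (VV G) g * UU B g + 4 * iS (VV G) g := fun g => by
    by_cases hv : g ∈ VV G
    · have := CC_nn B g
      rw [iS_yes hv, QQ, h.pFV hD hv]
      nlinarith [sq_nonneg (UU B g - 2)]
    · rw [iS_no hv]
      by_cases hg : g ∈ B
      · obtain ⟨a1, a2, a3⟩ := h.onB hg
        simp [QQ, a1, a2, a3]
      · simpa using h.Q_nn (ρ := 0) (by omega) hg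
  have a1 := sum_nonneg fun g (_ : g ∈ univ) => pt g
  rw [sum_add_distrib, sum_sub_distrib, ← mul_sum, sumI, h.pQ hD] at a1
  have a2 : (3 : ℤ) ≤ m := by omega
  have a3 : (2 : ℤ) ≤ (VV G).card := by exact_mod_cast hN
  nlinarith

lemma Sid.perf2 (h : Sid B m) (hD : DD B = VV G) (hm : m % 3 = 2) {z : G} (hz : z ≠ 0)
    (h2 : z + z = 0) : m = 2 ∧ Fintype.card G = 10 := by
  obtain ⟨χ, x, hx⟩ := exists_char hz h2
  have a1 := h.D1_ge χ hx
  have a2 : ∑ y ∈ DD B, cc χ y ≤ 1 := by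
    by_contra a3
    obtain ⟨a, ha, b, hb, hab, ca, cb⟩ := two_of_sum (B := B) χ (not_le.1 a3)
    have a4 := h.two_miss χ hm ha hb hab ca cb
    rw [h.prow hD ha, h.prow hD hb] at a4
    omega
  have hV : ({0, z} : Finset G) = VV G :=
    eq_of_subset_of_card_le (by simp [insert_subset_iff, VV, h2])
      (by rw [card_pair hz.symm, ← hD]; omega)
  have hN : (VV G).card = 2 := by rw [← hV, card_pair hz.symm]
  have hzD : z ∈ DD B := by rw [hD, ← hV]; simp
  have cz : cc χ z = 1 := by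
    rw [hD, hN, ← hV, sum_pair hz.symm, cc_zero] at a1
    have := cc_le χ z
    omega
  have hF : ∀ g, FF B g = iS B g + iS B (g - z) := fun g => by
    rw [FF, hD, ← hV, sum_pair hz.symm, sub_zero]
  have key : ∀ g, g - z ∈ B → g ∉ B ∧ FF B g = 1 ∧ 3 ≤ UU B g + CC B g := fun g hg => by
    have b1 := h.pF hD g
    have b2 := hF g
    have b3 := iS_nn B g
    rw [iS_yes hg] at b2
    obtain ⟨c1, c2⟩ := h.low χ hzD cz hg (by omega)
    have c3 := h.mod3 c1
    have c4 := CC_nn B g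
    exact ⟨c1, by omega, by omega⟩
  have pt : ∀ g, 0 ≤ iS B (g - z) * UU B g - 3 * iS B (g - z) + CC B g := fun g => by
    by_cases hg : g - z ∈ B
    · have := (key g hg).2.2
      rw [iS_yes hg]
      omega
    · simpa [iS_no hg] using CC_nn B g
  have a3 : ∑ g, (iS B (g - z) * UU B g - 3 * iS B (g - z) + CC B g) = 0 := by
    refine le_antisymm ?_ (sum_nonneg fun g _ => pt g)
    have := h.sum_wU hzD
    rw [sum_add_distrib, sum_sub_distrib, ← mul_sum, shift1, h.sumC, h.card]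
    push_cast
    linarith
  have a4 := fun g => (sum_eq_zero_iff_of_nonneg fun y _ => pt y).1 a3 g (mem_univ g)
  have ps : ∀ g, 0 ≤ UU B g - 2 - UU B g * FF B g + 2 * FF B g ∧
      (UU B g - 2 - UU B g * FF B g + 2 * FF B g) ^ 2 =
        UU B g * UU B g - 4 * UU B g + 4 - FF B g + CC B g := fun g => by
    have b1 := a4 g
    by_cases hg : g - z ∈ B
    · obtain ⟨-, c2, -⟩ := key g hg
      have c4 := CC_nn B g
      have c5 := CC_le_UU B g
      rw [iS_yes hg] at b1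
      rw [c2]
      obtain ⟨c6, c7⟩ | ⟨c6, c7⟩ : UU B g = 3 ∧ CC B g = 0 ∨ UU B g = 2 ∧ CC B g = 1 := by omega
      all_goals simp [c6, c7]
    · rw [iS_no hg] at b1
      by_cases hb : g ∈ B
      · obtain ⟨c1, c2, c3⟩ := h.onB hb
        simp [c1, c2, c3]
      · have c1 := h.mod3 hb
        have c2 := hF g
        have c3 := UU_nn B g
        rw [iS_no hg, iS_no hb] at c2
        have c4 : CC B g = 0 := by omega
        rw [c2, c4]
        exact ⟨by omega, by ring⟩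
  have a5 := sum_sq_le_sq_sum_of_nonneg fun g (_ : g ∈ univ) => (ps g).1
  have a6 : 0 ≤ ∑ g, iS (VV G) g * UU B g :=
    sum_nonneg fun g _ => mul_nonneg (iS_nn _ _) (UU_nn _ _)
  have a7 := h.order
  simp only [fun g => (ps g).2] at a5
  simp only [sum_add_distrib, sum_sub_distrib (s := (univ : Finset G)), ← mul_sum, h.sumUU,
    h.sumUF, h.sumU, h.sumF, h.sumC, h.pV hD, h.pE1 hD, h.pE3 hD, sum_const, card_univ,
    nsmul_eq_mul, a7] at a5
  rw [hD, hN] at a5 a7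
  push_cast at a5 a7
  have a8 : m = 2 := by
    have : (m : ℤ) ≤ 4 := by nlinarith
    omega
  subst a8
  exact ⟨rfl, by exact_mod_cast a7⟩

end Pool.Agent.MP_824cb5_co.Ev
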