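import Pool.Agent.MP_824cb5_co.Ev.Perf

/-! The case with no defect: the residue one. -/

open Finset

namespace Pool.Agent.MP_824cb5_co.Ev

variable {G : Type} [AddCommGroup G] [Fintype G] [DecidableEq G] {B : Finset G} {m : ℕ}

lemma Sid.phi (h : Sid B m) (hD : DD B = VV G) (hm : m % 3 = 1) (g : G) :
    0 ≤ QQ B 1 g - iS (VV G) g * UU B g + 4 * iS (VV G) g - 4 * iS B g := by
  by_cases hg : g ∈ B
  · obtain ⟨a1, a2, a3⟩ := h.onB hg
    simp [QQ, a1, a2, a3, iS_yes hg, iS_no (h.not_V hg)]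
  · by_cases hv : g ∈ VV G
    · have a1 := CC_nn B g
      have a2 := h.mod3 hg
      rw [iS_yes hv, iS_no hg, QQ]
      rw [h.pFV hD hv] at a2 ⊢
      by_cases a3 : UU B g = 3
      · rw [a3] at a2 ⊢
        omega
      · have a4 : 0 ≤ (UU B g - 2) * (UU B g - 4) := by
          rcases lt_or_gt_of_ne a3 with a5 | a5
          · exact mul_nonneg_of_nonpos_of_nonpos (by omega) (by omega)
          · exact mul_nonneg (by omega) (by omega)
        nlinarith
    · simpa [iS_no hv, iS_no hg] using h.Q_nn (ρ := 1) (by omega) hg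

lemma Sid.sumphi (h : Sid B m) (hD : DD B = VV G) :
    ∑ g, (QQ B 1 g - iS (VV G) g * UU B g + 4 * iS (VV G) g - 4 * iS B g) =
      8 * (VV G).card - 4 * m := by
  rw [sum_sub_distrib, sum_add_distrib, sum_sub_distrib, ← mul_sum, ← mul_sum, sumI, h.sumB,
    h.pQ hD]
  ring

lemma Sid.perf1 (h : Sid B m) (hD : DD B = VV G) (hm : m % 3 = 1) :
    m = (VV G).card ∨ m = 2 * (VV G).card := by
  have a1 := sum_nonneg fun g (_ : g ∈ univ) => h.phi hD hm g
  rw [h.sumphi hD] at a1
  obtain ⟨k, hk⟩ := h.pdvd hD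
  have hN : 0 < (VV G).card := card_pos.2 ⟨0, zero_V⟩
  have a2 : k ≤ 2 := Nat.le_of_mul_le_mul_left (by omega) hN
  interval_cases k <;> omega

/-- solutions in the same class modulo doubles -/
def US (B : Finset G) (g : G) : ℤ := ∑ b ∈ B, iS B (g - (b + b)) * pre (b - g)

omit [Fintype G] in
lemma one_le_W {b g : G} (hb : b ∈ B) (hc : g - (b + b) ∈ B) (f : G → ℤ) (hf : ∀ x, 0 ≤ f x) :
    f b ≤ ∑ b ∈ B, iS B (g - (b + b)) * f b := by
  have := single_le_sum (f := fun b => iS B (g - (b + b)) * f b)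
    (fun y _ => mul_nonneg (iS_nn _ _) (hf _)) hb
  simpa [iS_yes hc] using this

lemma Sid.US_ge (h : Sid B m) {g : G} (hU : UU B g = 1) (hF : FF B g = 0) :
    ((VV G).card : ℤ) ≤ US B g := by
  obtain ⟨b, hb, h2⟩ := exists_ne_zero_of_sum_ne_zero (hU.trans_ne one_ne_zero)
  have hc : g - (b + b) ∈ B := by
    by_contra h3
    exact h2 (iS_no h3)
  have a1 := one_le_W hb hc (fun b => pre (b - g)) fun _ => pre_nn _
  by_cases h3 : ∃ y, y + y = b - g
  · obtain ⟨y, hy⟩ := h3
    rwa [← hy, pre_two] at a1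
  · obtain ⟨χ, hχ⟩ := exists_chi (x := b - g) fun y hy => h3 ⟨y, hy⟩
    have a2 := one_le_W hb hc (fun b => cc χ (b - g)) fun _ => cc_nn _ _
    have a3 := h.parity χ g
    have a4 := WW_le χ B g
    have a5 := F1_nn χ B g
    have a6 := F1_le χ B g
    change cc χ (b - g) ≤ WW B χ g at a2
    omega

lemma Sid.sumUS (h : Sid B m) (hD : DD B = VV G) : ∑ g, US B g = 4 * m ^ 2 := by
  have a1 : ∑ g, US B g = ∑ b ∈ B, KK B (-b) := by
    simp only [US]
    rw [sum_comm]
    simp only [shiftS]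
    refine sum_congr rfl fun b _ => sum_congr rfl fun c _ => ?_
    congr 1
    abel
  simp only [a1, h.pK hD, sum_const, h.card, nsmul_eq_mul]
  push_cast
  ring

lemma Sid.perf1a (h : Sid B m) (hD : DD B = VV G) (hm : m % 3 = 1) (h2 : m = 2 * (VV G).card)
    (he : 2 ∣ Fintype.card G) : m = 4 ∧ Fintype.card G = 34 := by
  have hN : (0 : ℤ) < (VV G).card := by exact_mod_cast card_pos.2 ⟨0, zero_V⟩
  have a0 := h.sumphi hD
  rw [show (8 * (VV G).card - 4 * m : ℤ) = 0 by omega] at a0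
  have a1 := fun g => (sum_eq_zero_iff_of_nonneg fun y _ => h.phi hD hm y).1 a0 g (mem_univ g)
  have pt : ∀ g, 0 ≤ 3 * US B g +
      (VV G).card * (UU B g + 2 * FF B g + CC B g + iS B g - 4) := fun g => by
    have b0 : 0 ≤ US B g := sum_nonneg fun _ _ => mul_nonneg (iS_nn _ _) (pre_nn _)
    have b1 := a1 g
    have b2 := CC_nn B g
    have b3 := FF_nn B g
    have b4 := UU_nn B g
    have b5 := h.pF hD g
    by_cases hg : g ∈ B
    · obtain ⟨c1, c2, c3⟩ := h.onB hg
      simpa [c1, c2, c3, iS_yes hg] using b0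
    have b6 := h.mod3 hg
    rw [iS_no hg, QQ] at b1
    rw [iS_no hg]
    by_cases b7 : 0 ≤ UU B g + 2 * FF B g + CC B g + 0 - 4
    · positivity
    have b8 : UU B g ≤ 3 := by omega
    have b9 : UU B g = 1 ∧ FF B g = 0 ∧ CC B g = 0 := by
      by_cases hv : g ∈ VV G
      · rw [iS_yes hv] at b1
        generalize UU B g = u at *
        generalize FF B g = f at *
        interval_cases u <;> interval_cases f <;> omega
      · rw [iS_no hv] at b1
        generalize UU B g = u at *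
        generalize FF B g = f at *
        interval_cases u <;> interval_cases f <;> omega
    have := h.US_ge b9.1 b9.2.1
    rw [b9.1, b9.2.1, b9.2.2]
    linarith
  have a2 := sum_nonneg fun g (_ : g ∈ univ) => pt g
  have a3 := h.order
  simp only [sum_add_distrib, sum_sub_distrib (s := (univ : Finset G)), ← mul_sum, h.sumUS hD,
    h.sumU, h.sumF, h.sumC, h.sumB, sum_const, card_univ, nsmul_eq_mul, a3] at a2
  rw [hD] at a2 a3
  generalize (VV G).card = N at *
  subst h2
  push_cast at a2 a3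
  have a4 : (N : ℤ) ≤ 6 := by
    by_contra a5
    have : (0 : ℤ) < N * N * (8 * N - 52) := by
      have : (0 : ℤ) < 8 * N - 52 := by omega
      positivity
    nlinarith
  have a5 : N ≤ 6 := by omega
  interval_cases N <;> omega

lemma Sid.perf1b (h : Sid B m) (hD : DD B = VV G) (hm : m % 3 = 1) (h2 : m = (VV G).card) :
    (∀ v ∈ VV G, ∃ b ∈ B, b + b + b = v) ∧ ∀ b ∈ B, b + b + b ∈ VV G := by
  have a3 := h.order
  have hF : ∀ g, FF B g = 1 - iS (VV G) g := by
    have b0 : ∀ g, 0 ≤ 1 - iS (VV G) g - FF B g := fun g => by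
      by_cases hv : g ∈ VV G
      · rw [iS_yes hv, h.pFV hD hv, sub_self, sub_self]
      · have := h.pF hD g
        rw [iS_no hv]
        omega
    have b1 : ∑ g, (1 - iS (VV G) g - FF B g) = 0 := by
      simp only [sum_sub_distrib, sumI, h.sumF, sum_const, card_univ, nsmul_eq_mul, a3, hD, ← h2]
      ring
    intro g
    have := (sum_eq_zero_iff_of_nonneg fun y _ => b0 y).1 b1 g (mem_univ g)
    omega
  have hd : ∑ g, iS (VV G) g * UU B g = 2 * m := by
    have : ∀ b ∈ B, ∑ v ∈ VV G, iS B (v - (b + b)) = 1 := fun b hb => by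
      have c1 := hF (b + b)
      rw [iS_no (hD ▸ not_D hb hb (h.two b hb)), FF, hD, sub_zero] at c1
      rw [← c1]
      exact sum_congr rfl fun v _ => by rw [← h.iS_neg, neg_sub]
    rw [sumS]
    simp only [UU]
    rw [sum_comm, sum_congr rfl this]
    simp [h.card]
  have pt : ∀ g, 0 ≤ QQ B 1 g + 3 * UU B g - 3 - 3 * FF B g - 2 * CC B g - iS B g -
      2 * (iS (VV G) g * UU B g) + 3 * iS (VV G) g := fun g => by
    by_cases hg : g ∈ B
    · obtain ⟨c1, c2, c3⟩ := h.onB hg
      simp [QQ, c1, c2, c3, iS_yes hg, iS_no (h.not_V hg)]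
    · rw [iS_no hg, QQ, hF]
      by_cases hv : g ∈ VV G
      · rw [iS_yes hv]
        nlinarith [sq_nonneg (UU B g - 2)]
      · rw [iS_no hv]
        nlinarith [sq_nonneg (UU B g - 2)]
  have a0 : ∑ g, (QQ B 1 g + 3 * UU B g - 3 - 3 * FF B g - 2 * CC B g - iS B g -
      2 * (iS (VV G) g * UU B g) + 3 * iS (VV G) g) = 0 := by
    simp only [sum_add_distrib, sum_sub_distrib (s := (univ : Finset G)), ← mul_sum, h.pQ hD,
      h.sumU, h.sumF, h.sumC, h.sumB, sumI, sum_const, card_univ, nsmul_eq_mul, a3, hd, hD, ← h2]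
    ring
  have a1 := fun g => (sum_eq_zero_iff_of_nonneg fun y _ => pt y).1 a0 g (mem_univ g)
  have a2 : ∀ g, 0 ≤ CC B g - 2 * iS (VV G) g := fun g => by
    have c0 := CC_nn B g
    by_cases hv : g ∈ VV G
    · have hg : g ∉ B := fun hg => h.not_V hg hv
      have c1 := a1 g
      have c2 := h.mod3 hg
      rw [iS_no hg, QQ, iS_yes hv] at c1
      rw [h.pFV hD hv] at c1 c2
      have c3 : UU B g = 2 := by nlinarith [sq_nonneg (UU B g - 2)]
      rw [iS_yes hv]
      omega
    · rw [iS_no hv]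
      omega
  have a4 : ∑ g, (CC B g - 2 * iS (VV G) g) = 0 := by
    rw [sum_sub_distrib, ← mul_sum, sumI, h.sumC, ← h2, sub_self]
  have a5 := fun g => (sum_eq_zero_iff_of_nonneg fun y _ => a2 y).1 a4 g (mem_univ g)
  refine ⟨fun v hv => ?_, fun b hb => ?_⟩
  · have c1 := a5 v
    rw [iS_yes hv] at c1
    obtain ⟨b, hb, c2⟩ := exists_ne_zero_of_sum_ne_zero (show CC B v ≠ 0 by omega)
    refine ⟨b, hb, ?_⟩
    by_contra c3
    exact c2 (iE_no c3)
  · by_contra hv
    have c1 := a5 (b + b + b)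
    rw [iS_no hv, mul_zero, sub_zero] at c1
    have c2 := (sum_eq_zero_iff_of_nonneg fun c _ => iE_nn (c + c + c) (b + b + b)).1 c1 b hb
    simp [iE] at c2

end Pool.Agent.MP_824cb5_co.Ev
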